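import Pool.Agent.N855.CNF.Char
import Pool.Agent.N969.P15.Defs

/-!
# The local densities of orthogonal pairs as a sum over genus characters
-/

set_option autoImplicit false

namespace Pool.Agent.N855.CNF

open Finset ArithmeticFunction
open Pool.Agent.N969.P15 (tw loc)
open Pool.Agent.Z700 (hh fac)

lemma odd_of_dvd {n l : ℕ} (h4 : n % 4 = 3) (hl : l.Prime) (h : l ∣ n) : Odd l := by
  rcases hl.eq_two_or_odd' with h2 | h2
  · subst h2; omega
  · exact h2

lemma jac_neg {n l : ℕ} (h4 : n % 4 = 3) (hl : Odd l) :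
    jacobiSym (-(n : ℤ)) l = jacobiSym (l : ℤ) n := by
  have hn : Odd n := Nat.odd_iff.2 (by omega)
  rw [neg_eq_neg_one_mul, jacobiSym.mul_left, jacobiSym.at_neg_one hl]
  rcases Nat.odd_mod_four_iff.1 (Nat.odd_iff.1 hl) with h1 | h3
  · rw [ZMod.χ₄_nat_one_mod_four h1, one_mul]
    exact jacobiSym.quadratic_reciprocity_one_mod_four' hn h1
  · rw [ZMod.χ₄_nat_three_mod_four h3, jacobiSym.quadratic_reciprocity_three_mod_four h4 h3]
    ring

lemma jac_two {n : ℕ} (h4 : n % 4 = 3) :
    jacobiSym (2 : ℤ) n = if n % 8 = 7 then 1 else -1 := by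
  have hn : Odd n := Nat.odd_iff.2 (by omega)
  rw [jacobiSym.at_two hn, ZMod.χ₈_nat_eq_if_mod_eight]
  have : n % 8 = 3 ∨ n % 8 = 7 := by omega
  rcases this with h | h
  · rw [if_neg (by omega), if_neg (by omega), if_neg (by omega)]
  · rw [if_neg (by omega), if_pos (by omega), if_pos h]

lemma jac_five {n : ℕ} (h4 : n % 4 = 3) (h5 : n % 5 = 2 ∨ n % 5 = 3) :
    jacobiSym (5 : ℤ) n = -1 := by
  have hn : Odd n := Nat.odd_iff.2 (by omega)
  have h1 := jacobiSym.quadratic_reciprocity_one_mod_four (a := 5) (b := n) (by norm_num) hn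
  rw [Nat.cast_ofNat] at h1
  rw [h1]
  have h2 : jacobiSym (n : ℤ) 5 = jacobiSym ((n : ℤ) % 5) 5 := jacobiSym.mod_left _ _
  rw [h2]
  rcases h5 with h | h
  · have : (n : ℤ) % 5 = 2 := by omega
    rw [this]; decide +kernel
  · have : (n : ℤ) % 5 = 3 := by omega
    rw [this]; decide +kernel

/-- the Euler factor -/
def Rf (n m p : ℕ) : ℤ := ∑ j ∈ range (m.factorization p + 1), ch n.primeFactors p ^ j

lemma Rf_one {n m p : ℕ} (h : m.factorization p = 0) : Rf n m p = 1 := by
  unfold Rf; rw [h]; simp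

lemma Rf_P {n m p : ℕ} (h : p ∈ n.primeFactors) : Rf n m p = 1 := by
  unfold Rf
  rw [ch_zero (Nat.prime_of_mem_primeFactors h) h, sum_eq_single 0]
  · simp
  · intro j _ hj; exact zero_pow hj
  · intro h'; exact absurd (mem_range.2 (Nat.succ_pos _)) h'

lemma conv_Rf {n m : ℕ} (hm : m ≠ 0) (U : Finset ℕ) (hU : m.primeFactors ⊆ U) :
    (cA ∅ * cA n.primeFactors) m = ∏ p ∈ U, Rf n m p := by
  rw [IsMultiplicative.multiplicative_factorization _ ((cA_mult _).mul (cA_mult _)) hm,
    Finsupp.prod, Nat.support_factorization]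
  have h1 : ∀ p ∈ m.primeFactors, (cA ∅ * cA n.primeFactors) (p ^ m.factorization p) =
      Rf n m p := by
    intro p hp
    have hpp := Nat.prime_of_mem_primeFactors hp
    rw [conv_pow _ _ hpp]
    unfold Rf
    rw [← sum_range_reflect]
    apply sum_congr rfl
    intro j hj
    rw [mem_range] at hj
    rw [cA_apply _ (pow_ne_zero _ hpp.ne_zero), cA_apply _ (pow_ne_zero _ hpp.ne_zero), ch_empty,
      ch_pow, one_mul]
    congr 1
    omega
  rw [prod_congr rfl h1]
  apply prod_subset hU
  intro p _ hp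
  apply Rf_one
  exact Finsupp.notMem_support_iff.1 (by rw [Nat.support_factorization]; exact hp)

lemma hh_eq {n m l : ℕ} (hn : Squarefree n) (h4 : n % 4 = 3) (h5 : ¬ 5 ∣ n) (hm : m ≠ 0)
    (hl : l ∈ n.primeFactors) :
    hh n (n * (20 * m)) l = jacobiSym (-5) l * eta n l m := by
  have hlp := Nat.prime_of_mem_primeFactors hl
  have hln := Nat.dvd_of_mem_primeFactors hl
  have hlo := odd_of_dvd h4 hlp hln
  have hl2 : l ≠ 2 := by rintro rfl; exact absurd hlo (by decide)
  have hl5 : l ≠ 5 := by rintro rfl; exact h5 hln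
  have hn0 : n ≠ 0 := hn.ne_zero
  have hv1 : n.factorization l = 1 := by
    have h1 := hn.natFactorization_le_one l
    have h2 : 0 < n.factorization l := hlp.factorization_pos_of_dvd hn0 hln
    omega
  have hv20 : (20 : ℕ).factorization l = 0 := by
    apply Nat.factorization_eq_zero_of_not_dvd
    intro h
    have h3 : l ∣ 2 ^ 2 * 5 := by norm_num; exact h
    rcases (Nat.Prime.dvd_mul hlp).1 h3 with h4' | h4'
    · exact hl2 ((Nat.prime_dvd_prime_iff_eq hlp Nat.prime_two).1 (hlp.dvd_of_dvd_pow h4'))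
    · exact hl5 ((Nat.prime_dvd_prime_iff_eq hlp Nat.prime_five).1 h4')
  set a := m.factorization l with ha
  have hv : (n * (20 * m)).factorization l = a + 1 := by
    rw [Nat.factorization_mul hn0 (by positivity), Nat.factorization_mul (by norm_num) hm]
    simp only [Finsupp.add_apply]
    rw [hv1, hv20, ← ha]; ring
  set ml := m / l ^ a with hml
  have hmm : l ^ a * ml = m := Nat.mul_div_cancel' (Nat.ordProj_dvd m l)
  set n' := n / l with hn'
  have hnn : l * n' = n := Nat.mul_div_cancel' hln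
  have hquo : n * (20 * m) / l ^ (a + 1) = n' * 20 * ml := by
    apply Nat.div_eq_of_eq_mul_right (pow_pos hlp.pos _)
    rw [← hnn, ← hmm]
    ring
  have hj4 : jacobiSym 4 l = 1 := jacobiSym.at_four hlo
  have hcop : Int.gcd (n' : ℤ) (l : ℤ) = 1 := by
    rw [Int.gcd_natCast_natCast, Nat.gcd_comm]
    apply (Nat.Prime.coprime_iff_not_dvd hlp).2
    rintro ⟨j, hj⟩
    have : l * l ∣ n := ⟨j, by rw [← hnn, hj]; ring⟩
    exact hlp.one_lt.ne' (Nat.isUnit_iff.1 (hn l this))
  have hj2 : jacobiSym (n' : ℤ) l ^ 2 = 1 := jacobiSym.sq_one hcop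
  unfold hh eta
  rw [hv, hquo, ← ha, ← hml, ← hn']
  by_cases hev : Even a
  · rw [if_neg (by rw [Nat.even_add_one]; simpa using hev)]
    have e1 : (-((n' * (n' * 20 * ml) : ℕ) : ℤ)) = (-5) * 4 * ((n' : ℤ) ^ 2) * (ml : ℤ) := by
      push_cast; ring
    obtain ⟨b, hb⟩ := hev
    rw [e1, jacobiSym.mul_left, jacobiSym.mul_left, jacobiSym.mul_left, jacobiSym.pow_left, hj4,
      hj2, hb, ← two_mul, pow_mul, hj2, one_pow]
    ring
  · rw [if_pos (by rw [Nat.even_add_one]; exact hev)]
    have e1 : (-((n' * 20 * ml : ℕ) : ℤ)) = (-5) * 4 * (n' : ℤ) * (ml : ℤ) := by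
      push_cast; ring
    rw [Nat.not_even_iff_odd] at hev
    obtain ⟨b, hb⟩ := hev
    rw [e1, jacobiSym.mul_left, jacobiSym.mul_left, jacobiSym.mul_left, hj4,
      hb, pow_succ, pow_mul, hj2, one_pow]
    ring

/-- the local densities of orthogonal pairs -/
theorem loc_eq {n m : ℕ} (hn : Squarefree n) (h4 : n % 4 = 3) (h5 : n % 5 = 2 ∨ n % 5 = 3)
    (hm : m ≠ 0) : loc n (n * (20 * m)) = ∑ S ∈ n.primeFactors.powerset,
      (∏ l ∈ S, jacobiSym (-5) l) * (cA S * cA (n.primeFactors \ S)) m := by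
  have h5' : ¬ 5 ∣ n := by omega
  have hn0 : n ≠ 0 := hn.ne_zero
  have h20 : (20 * m) ≠ 0 := by positivity
  set D := n * (20 * m) with hD
  have hD0 : D ≠ 0 := mul_ne_zero hn0 h20
  set U := D.primeFactors with hU
  have hvD : ∀ l : ℕ, D.factorization l = n.factorization l + (20 : ℕ).factorization l +
      m.factorization l := by
    intro l
    rw [hD, Nat.factorization_mul hn0 h20, Nat.factorization_mul (by norm_num) hm]
    simp only [Finsupp.add_apply]
    ring
  have h20f : (20 : ℕ).factorization = Finsupp.single 2 2 + Finsupp.single 5 1 := by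
    have : (20 : ℕ) = 2 ^ 2 * 5 := by norm_num
    rw [this, Nat.factorization_mul (by norm_num) (by norm_num), Nat.prime_two.factorization_pow,
      Nat.prime_five.factorization]
  have hv2 : D.factorization 2 = 2 + m.factorization 2 := by
    rw [hvD, h20f, Nat.factorization_eq_zero_of_not_dvd (by omega : ¬ 2 ∣ n)]
    simp
  have hv5 : D.factorization 5 = 1 + m.factorization 5 := by
    rw [hvD, h20f, Nat.factorization_eq_zero_of_not_dvd h5']
    simp
  have hmU : m.primeFactors ⊆ U := Nat.primeFactors_mono ⟨n * 20, by rw [hD]; ring⟩ hD0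
  have hPU : n.primeFactors ⊆ U := Nat.primeFactors_mono ⟨20 * m, rfl⟩ hD0
  have h2U : 2 ∈ U := by
    rw [hU, Nat.mem_primeFactors]
    exact ⟨Nat.prime_two, ⟨n * (10 * m), by rw [hD]; ring⟩, hD0⟩
  have h5U : 5 ∈ U.erase 2 := by
    rw [mem_erase, hU, Nat.mem_primeFactors]
    exact ⟨by norm_num, Nat.prime_five, ⟨n * (4 * m), by rw [hD]; ring⟩, hD0⟩
  have h2P : 2 ∉ n.primeFactors := fun h => by
    have := Nat.dvd_of_mem_primeFactors h; omega
  have h5P : 5 ∉ n.primeFactors := fun h => h5' (Nat.dvd_of_mem_primeFactors h)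
  have hr := conv_Rf (n := n) hm U hmU
  rw [← mul_prod_erase U _ h2U, ← mul_prod_erase (U.erase 2) _ h5U] at hr
  have hR2 : tw n D = Rf n m 2 := by
    unfold tw Rf
    rw [hv2, ch_primeFactors hn, Nat.cast_ofNat, jac_two h4]
    have : 2 + m.factorization 2 - 1 = m.factorization 2 + 1 := by omega
    rw [this]
  have hR5 : Rf n m 5 = if Odd (D.factorization 5) then 1 else 0 := by
    unfold Rf
    rw [hv5, ch_primeFactors hn, Nat.cast_ofNat, jac_five h4 h5]
    generalize m.factorization 5 = k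
    induction k with
    | zero => simp
    | succ k ih =>
      rw [sum_range_succ, ih]
      rcases Nat.even_or_odd k with hk | hk
      · have o1 : Odd (1 + k) := by rw [add_comm]; exact hk.add_one
        have o2 : ¬ Odd (1 + (k + 1)) := by
          rw [Nat.not_odd_iff_even, show 1 + (k + 1) = k + 2 by ring]
          exact hk.add (by decide)
        rw [if_pos o1, if_neg o2, (hk.add_one).neg_one_pow]
        ring
      · have o1 : ¬ Odd (1 + k) := by rw [add_comm, Nat.not_odd_iff_even]; exact hk.add_one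
        have o2 : Odd (1 + (k + 1)) := by
          rw [show 1 + (k + 1) = k + 2 by ring]
          exact hk.add_even (by decide)
        rw [if_neg o1, if_pos o2, (hk.add_one).neg_one_pow]
        ring
  have hfac : ∀ l ∈ (U.erase 2).erase 5, fac n D l =
      (if l ∈ n.primeFactors then 1 + hh n D l else 1) * Rf n m l := by
    intro l hl
    have hl5 : l ≠ 5 := ne_of_mem_erase hl
    have hl2 : l ≠ 2 := ne_of_mem_erase (mem_of_mem_erase hl)
    have hlU := mem_of_mem_erase (mem_of_mem_erase hl)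
    have hlp := Nat.prime_of_mem_primeFactors hlU
    unfold fac
    by_cases hln : l ∣ n
    · have hlP : l ∈ n.primeFactors := Nat.mem_primeFactors.2 ⟨hlp, hln, hn0⟩
      rw [if_pos hln, if_pos hlP, Rf_P hlP, mul_one]
    · have hlP : l ∉ n.primeFactors := fun h => hln (Nat.dvd_of_mem_primeFactors h)
      rw [if_neg hln, if_neg hlP, one_mul]
      unfold Rf
      have hv : D.factorization l = m.factorization l := by
        rw [hvD, h20f, Nat.factorization_eq_zero_of_not_dvd hln]
        simp [Ne.symm hl2, Ne.symm hl5]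
      have hlo : Odd l := hlp.odd_of_ne_two hl2
      rw [hv, ch_primeFactors hn, jac_neg h4 hlo]
  have hprodP : ∏ l ∈ (U.erase 2).erase 5, (if l ∈ n.primeFactors then 1 + hh n D l else 1) =
      ∏ l ∈ n.primeFactors, (1 + hh n D l) := by
    rw [← prod_filter]
    congr 1
    ext l
    rw [mem_filter, mem_erase, mem_erase]
    constructor
    · rintro ⟨_, h⟩; exact h
    · intro h
      exact ⟨⟨fun e => h5P (e ▸ h), fun e => h2P (e ▸ h), hPU h⟩, h⟩
  have hmain : loc n D = (∏ l ∈ n.primeFactors, (1 + hh n D l)) *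
      (cA ∅ * cA n.primeFactors) m := by
    rw [hr]
    unfold loc
    rw [prod_congr rfl hfac, prod_mul_distrib, hprodP, hR2, hR5]
    split_ifs
    · ring
    · ring
  rw [hmain, prod_one_add, sum_mul]
  apply sum_congr rfl
  intro S hS
  rw [mem_powerset] at hS
  have e1 : ∏ l ∈ S, hh n D l = (∏ l ∈ S, jacobiSym (-5) l) * eA n S m := by
    rw [eA_apply n S hm, ← prod_mul_distrib]
    exact prod_congr rfl fun l hl => hh_eq hn h4 h5' hm (hS hl)
  rw [e1, mul_assoc]
  congr 1
  rw [← conv_eq hn h4 hS, pmul_apply]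

/-- the other norms -/
theorem loc_zero {n k : ℕ} (hn : Squarefree n) (h4 : n % 4 = 3) (h5 : ¬ 5 ∣ n) (hk : k ≠ 0)
    (h : ¬ 20 ∣ k) : loc n (n * k) = 0 := by
  have hn0 : n ≠ 0 := hn.ne_zero
  have hv5 : (n * k).factorization 5 = k.factorization 5 := by
    rw [Nat.factorization_mul hn0 hk, Finsupp.add_apply,
      Nat.factorization_eq_zero_of_not_dvd h5, zero_add]
  have hv2 : (n * k).factorization 2 = k.factorization 2 := by
    rw [Nat.factorization_mul hn0 hk, Finsupp.add_apply,
      Nat.factorization_eq_zero_of_not_dvd (by omega : ¬ 2 ∣ n), zero_add]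
  unfold loc
  split_ifs with hodd
  · rw [hv5] at hodd
    have h5k : 5 ∣ k := by
      by_contra h5k
      rw [Nat.factorization_eq_zero_of_not_dvd h5k] at hodd
      exact absurd hodd (by decide)
    have h4k : ¬ 4 ∣ k := fun h4k => h (by omega)
    have hlt : k.factorization 2 < 2 := by
      by_contra hge
      push Not at hge
      apply h4k
      have := (Nat.prime_two.pow_dvd_iff_le_factorization hk).2 hge
      norm_num at this
      exact this
    unfold tw
    rw [hv2]
    have : k.factorization 2 - 1 = 0 := by omega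
    rw [this]
    simp
  · rfl

end Pool.Agent.N855.CNF
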