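import Pool.Agent.N855.CNF.Lambert
import Pool.Agent.N855.CNF.Loc
import Pool.Agent.N855.CNF.Perp

/-!
# The class number formula for the ternary form, `5 ∤ n`

`r(n) = 6 L(0, χ)`, where `r(n)` is the number of vectors of norm `n` of the ternary lattice and
`χ` is the Jacobi symbol modulo `n`.
-/

set_option autoImplicit false

namespace Pool.Agent.N855.CNF

open Finset Filter Topology ArithmeticFunction
open Pool.Agent.N969.P15 (V3 ip vec cp rr loc S_PC)

lemma eq_zero_of_small {x C δ : ℝ} (hδ : 0 < δ) (h : ∀ t, 0 < t → t ≤ δ → |x| ≤ C * t) : x = 0 := by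
  by_contra hx
  have hx0 : 0 < |x| := abs_pos.2 hx
  have hC : 0 < |C| + 1 := by positivity
  have ht : 0 < min δ (|x| / (2 * (|C| + 1))) := by positivity
  have h1 := h _ ht (min_le_left _ _)
  have h2 : C * min δ (|x| / (2 * (|C| + 1))) ≤ (|C| + 1) * (|x| / (2 * (|C| + 1))) :=
    mul_le_mul (by linarith [le_abs_self C]) (min_le_right _ _) ht.le hC.le
  have h3 : (|C| + 1) * (|x| / (2 * (|C| + 1))) = |x| / 2 := by field_simp
  linarith

/-- the coefficient of the genus character -/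
noncomputable def sgS (S : Finset ℕ) : ℤ := ∏ l ∈ S, jacobiSym (-5) l

lemma sgS_abs (S : Finset ℕ) : |((sgS S : ℤ) : ℝ)| ≤ 1 := by
  have h : |sgS S| ≤ 1 := by
    unfold sgS
    rw [abs_prod]
    apply prod_le_one (fun _ _ => abs_nonneg _)
    intro p _
    rcases jacobiSym.trichotomy (-5) p with h | h | h <;> rw [h] <;> simp
  exact_mod_cast h

lemma OP_P {n : ℕ} (h4 : n % 4 = 3) : OP n.primeFactors := fun p hp =>
  ⟨Nat.prime_of_mem_primeFactors hp, fun h => by
    have := Nat.dvd_of_mem_primeFactors hp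
    rw [h] at this
    omega⟩

lemma md_P {n : ℕ} (hn : Squarefree n) : md n.primeFactors = n :=
  Nat.prod_primeFactors_of_squarefree hn

lemma md_sdiff {P S : Finset ℕ} (h : S ⊆ P) : md S * md (P \ S) = md P := by
  unfold md
  rw [mul_comm, prod_sdiff h]

/-- the limit of one genus character -/
lemma one_char {n : ℕ} (hn : Squarefree n) (h4 : n % 4 = 3) {S : Finset ℕ}
    (hS : S ⊆ n.primeFactors) : ∃ C : ℝ, ∀ t : ℝ, 0 < t → t ≤ 1 / 2 → ∀ s1 s2 : ℝ,
      HasSum (fun m : ℕ => (((cA S * cA (n.primeFactors \ S)) m : ℤ) : ℝ) *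
        Real.exp (-t) ^ m) s1 →
      HasSum (fun m : ℕ => (((cA S * cA (n.primeFactors \ S)) m : ℤ) : ℝ) *
        Real.exp (-(2 * t)) ^ m) s2 →
        |s1 - 2 * s2 - (if S = ∅ ∨ S = n.primeFactors then mu (rc n.primeFactors) n / 2 else 0)| ≤
          C * t := by
  set P := n.primeFactors with hP
  have hOP : OP P := OP_P h4
  have hP0 : P.Nonempty := by
    rw [hP, Nat.nonempty_primeFactors]; omega
  have hmd : md P = n := md_P hn
  by_cases h1 : S = ∅ ∨ S = P
  · rw [if_pos h1]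
    obtain ⟨C, hC⟩ := lam_triv hOP hP0
    rw [hmd] at hC
    refine ⟨C, fun t ht ht1 s1 s2 hs1 hs2 => ?_⟩
    have e : cA S * cA (P \ S) = cA P * cA ∅ := by
      rcases h1 with h1 | h1
      · rw [h1, sdiff_empty, mul_comm]
      · rw [h1, sdiff_self]; rfl
    rw [e] at hs1 hs2
    exact hC t ht (by linarith) s1 s2 hs1 hs2
  · rw [if_neg h1]
    push Not at h1
    have hS0 : S.Nonempty := h1.1
    have hT0 : (P \ S).Nonempty := by
      rw [sdiff_nonempty]
      intro h
      exact h1.2 (Subset.antisymm hS h)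
    have hOS : OP S := fun p hp => hOP p (hS hp)
    have hOT : OP (P \ S) := fun p hp => hOP p (mem_sdiff.1 hp).1
    have hmul := md_sdiff hS
    rw [hmd] at hmul
    have hpar : md S % 4 = 1 ∨ md (P \ S) % 4 = 1 := by
      have o1 := Nat.odd_mod_four_iff.1 (Nat.odd_iff.1 (md_odd hOS))
      have o2 := Nat.odd_mod_four_iff.1 (Nat.odd_iff.1 (md_odd hOT))
      rcases o1 with o1 | o1
      · exact Or.inl o1
      · rcases o2 with o2 | o2
        · exact Or.inr o2
        · exfalso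
          have : (md S * md (P \ S)) % 4 = 1 := by rw [Nat.mul_mod, o1, o2]
          rw [hmul] at this
          omega
    have key : ∃ C : ℝ, ∀ t : ℝ, 0 < t → t ≤ 1 → ∀ s : ℝ,
        HasSum (fun m : ℕ => (((cA S * cA (P \ S)) m : ℤ) : ℝ) * Real.exp (-t) ^ m) s →
          |s| ≤ C * t := by
      rcases hpar with h | h
      · obtain ⟨C, hC⟩ := lam_even hOT hOS hT0 hS0 h
        rw [mul_comm (cA (P \ S)) (cA S)] at hC
        exact ⟨C, hC⟩
      · exact lam_even hOS hOT hS0 hT0 h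
    obtain ⟨C, hC⟩ := key
    refine ⟨5 * C, fun t ht ht1 s1 s2 hs1 hs2 => ?_⟩
    have a1 := hC t ht (by linarith) s1 hs1
    have a2 := hC (2 * t) (by linarith) (by linarith) s2 hs2
    rw [sub_zero]
    have a3 := abs_sub s1 (2 * s2)
    rw [abs_mul, abs_two] at a3
    linarith

lemma cp_zero (n : ℕ) : cp n 0 0 = (vec n).card := by
  have h := cp_eq n 0
  rw [Nat.cast_zero] at h
  rw [h, card_eq_sum_ones]
  apply sum_congr rfl
  intro v _
  unfold Nv
  rw [card_eq_one]
  refine ⟨0, ?_⟩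
  ext w
  rw [mem_filter, mem_vec, mem_singleton]
  constructor
  · rintro ⟨h1, _⟩
    by_contra hw
    have := ip_pos hw
    rw [h1] at this
    simp at this
  · rintro rfl
    constructor <;> simp [ip]

/-- the number of vectors in terms of the mean value -/
theorem rr_mu (hPC : S_PC) {n : ℕ} (hn : Squarefree n) (h4 : n % 4 = 3)
    (h5 : n % 5 = 2 ∨ n % 5 = 3) : ((rr n : ℤ) : ℝ) = 6 * mu (rc n.primeFactors) n := by
  set P := n.primeFactors with hP
  have hn0 : 0 < n := by omega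
  have hOP : OP P := OP_P h4
  have hP0 : P.Nonempty := by
    rw [hP, Nat.nonempty_primeFactors]; omega
  obtain ⟨κ, K, htot⟩ := total n hn0
  choose! C hC using fun (S : Finset ℕ) (hS : S ⊆ P) => one_char hn h4 hS
  -- the coefficients
  have hc0 : ((cp n 0 (20 * (0 : ℕ)) : ℕ) : ℝ) = ((rr n : ℤ) : ℝ) := by
    have : (20 * ((0 : ℕ) : ℤ)) = 0 := by norm_num
    rw [this, cp_zero]
    unfold rr
    push_cast
    rfl
  have hcm : ∀ m : ℕ, m ≠ 0 → ((cp n 0 (20 * (m : ℤ)) : ℕ) : ℝ) =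
      6 * ∑ S ∈ P.powerset, ((sgS S : ℤ) : ℝ) * (((cA S * cA (P \ S)) m : ℤ) : ℝ) := by
    intro m hm
    have h1 := hPC n (20 * m) 0 (n * (20 * m)) hn h4 (by omega) (by positivity)
      (by push_cast; ring)
    rw [loc_eq hn h4 h5 hm] at h1
    have h2 : (((20 * m : ℕ) : ℤ)) = 20 * (m : ℤ) := by push_cast; ring
    rw [h2] at h1
    have h3 : ((cp n 0 (20 * (m : ℤ)) : ℕ) : ℝ) = (((cp n 0 (20 * (m : ℤ)) : ℕ) : ℤ) : ℝ) := by
      push_cast; rfl
    rw [h3, h1]
    push_cast
    congr 1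
    apply sum_congr rfl
    intro S _
    unfold sgS
    push_cast
    rfl
  have hck : ∀ k : ℕ, k ∉ Set.range (fun m : ℕ => 20 * m) → cp n 0 k = 0 := by
    intro k hk
    have hk1 : ¬ 20 ∣ k := fun ⟨m, hm⟩ => hk ⟨m, hm.symm⟩
    have hk0 : k ≠ 0 := fun h => hk1 (h ▸ dvd_zero 20)
    have h1 := hPC n k 0 (n * k) hn h4 (by omega) (by positivity) (by push_cast; ring)
    rw [loc_zero hn h4 (by omega) hk0 hk1, mul_zero] at h1
    exact_mod_cast h1
  -- the expansion
  have hexp : ∀ t : ℝ, 0 < t → ∀ s : ℝ,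
      HasSum (fun k : ℕ => (cp n 0 k : ℝ) * Real.exp (-(t * k))) s → ∀ ℓ : Finset ℕ → ℝ,
      (∀ S ∈ P.powerset, HasSum (fun m : ℕ => (((cA S * cA (P \ S)) m : ℤ) : ℝ) *
        Real.exp (-(20 * t)) ^ m) (ℓ S)) →
      s = ((rr n : ℤ) : ℝ) + 6 * ∑ S ∈ P.powerset, ((sgS S : ℤ) : ℝ) * ℓ S := by
    intro t ht s hs ℓ hℓ
    have hinj : Function.Injective (fun m : ℕ => 20 * m) := fun a b h => by
      simp only at h; omega
    rw [← hinj.hasSum_iff (fun k hk => by rw [hck k hk]; simp)] at hs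
    have h1 := hasSum_sum fun S hS => (hℓ S hS).mul_left ((sgS S : ℤ) : ℝ)
    have h2 := (h1.mul_left 6).add (hasSum_ite_eq (0 : ℕ) ((rr n : ℤ) : ℝ))
    have h3 : HasSum ((fun k : ℕ => (cp n 0 k : ℝ) * Real.exp (-(t * k))) ∘
        fun m : ℕ => 20 * m) (6 * ∑ S ∈ P.powerset, ((sgS S : ℤ) : ℝ) * ℓ S +
          ((rr n : ℤ) : ℝ)) := by
      refine h2.congr_fun fun m => ?_
      simp only [Function.comp_apply]
      rcases eq_or_ne m 0 with rfl | hm
      · rw [if_pos rfl]
        have e1 : ((20 * 0 : ℕ) : ℤ) = 20 * ((0 : ℕ) : ℤ) := by norm_num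
        rw [e1, hc0]
        simp
      · rw [if_neg hm, add_zero]
        have e1 : ((20 * m : ℕ) : ℤ) = 20 * (m : ℤ) := by push_cast; ring
        rw [e1, hcm m hm, mul_assoc, sum_mul]
        congr 1
        apply sum_congr rfl
        intro S _
        have e2 : Real.exp (-(20 * t)) ^ m = Real.exp (-(t * ((20 * m : ℕ) : ℝ))) := by
          rw [← Real.exp_nat_mul]; congr 1; push_cast; ring
        rw [e2]
        ring
    rw [hs.unique h3]
    ring
  -- the limit
  have hlim : ((rr n : ℤ) : ℝ) - 6 * ∑ S ∈ P.powerset, ((sgS S : ℤ) : ℝ) *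
      (if S = ∅ ∨ S = P then mu (rc P) n / 2 else 0) = 0 := by
    apply eq_zero_of_small (δ := 1 / 40)
      (C := 5 * K + 6 * ∑ S ∈ P.powerset, C S * 20) (by norm_num)
    intro t ht ht1
    obtain ⟨s1, hs1, hb1⟩ := htot t ht (by linarith)
    obtain ⟨s2, hs2, hb2⟩ := htot (2 * t) (by linarith) (by linarith)
    choose ℓ1 hℓ1 using fun S : Finset ℕ => lam_exists S (P \ S) (t := 20 * t) (by linarith)
    choose ℓ2 hℓ2 using fun S : Finset ℕ => lam_exists S (P \ S) (t := 20 * (2 * t)) (by linarith)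
    have e1 := hexp t ht s1 hs1 ℓ1 fun S _ => hℓ1 S
    have e2 := hexp (2 * t) (by linarith) s2 hs2 ℓ2 fun S _ => hℓ2 S
    have h1 : |s1 - 2 * s2| ≤ 5 * K * t := by
      have h2 : s1 - 2 * s2 = (s1 - κ / t) - 2 * (s2 - κ / (2 * t)) := by
        field_simp
        ring
      rw [h2]
      refine (abs_sub _ _).trans ?_
      rw [abs_mul, abs_two]
      linarith
    have h3 : ∀ S ∈ P.powerset, |((sgS S : ℤ) : ℝ) * (ℓ1 S - 2 * ℓ2 S -
        (if S = ∅ ∨ S = P then mu (rc P) n / 2 else 0))| ≤ C S * 20 * t := by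
      intro S hS
      rw [mem_powerset] at hS
      have h4 := hC S hS (20 * t) (by linarith) (by linarith) (ℓ1 S) (ℓ2 S) (hℓ1 S) (by
        have := hℓ2 S
        rwa [show 20 * (2 * t) = 2 * (20 * t) by ring] at this)
      rw [abs_mul]
      have h5 := sgS_abs S
      have h6 := abs_nonneg (ℓ1 S - 2 * ℓ2 S -
        (if S = ∅ ∨ S = P then mu (rc P) n / 2 else 0))
      calc |((sgS S : ℤ) : ℝ)| * _ ≤ 1 * _ := mul_le_mul_of_nonneg_right h5 h6
        _ ≤ C S * (20 * t) := by rw [one_mul]; exact h4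
        _ = C S * 20 * t := by ring
    have h4 : |∑ S ∈ P.powerset, ((sgS S : ℤ) : ℝ) * (ℓ1 S - 2 * ℓ2 S -
        (if S = ∅ ∨ S = P then mu (rc P) n / 2 else 0))| ≤
        (∑ S ∈ P.powerset, C S * 20) * t := by
      rw [sum_mul]
      exact (abs_sum_le_sum_abs _ _).trans (sum_le_sum h3)
    have h5 : ((rr n : ℤ) : ℝ) - 6 * ∑ S ∈ P.powerset, ((sgS S : ℤ) : ℝ) *
        (if S = ∅ ∨ S = P then mu (rc P) n / 2 else 0) =
        -(s1 - 2 * s2) + 6 * ∑ S ∈ P.powerset, ((sgS S : ℤ) : ℝ) * (ℓ1 S - 2 * ℓ2 S -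
        (if S = ∅ ∨ S = P then mu (rc P) n / 2 else 0)) := by
      have h6 : ∑ S ∈ P.powerset, ((sgS S : ℤ) : ℝ) * (ℓ1 S - 2 * ℓ2 S -
          (if S = ∅ ∨ S = P then mu (rc P) n / 2 else 0)) =
          ∑ S ∈ P.powerset, ((sgS S : ℤ) : ℝ) * ℓ1 S -
          2 * ∑ S ∈ P.powerset, ((sgS S : ℤ) : ℝ) * ℓ2 S -
          ∑ S ∈ P.powerset, ((sgS S : ℤ) : ℝ) *
            (if S = ∅ ∨ S = P then mu (rc P) n / 2 else 0) := by
        rw [mul_sum, ← sum_sub_distrib, ← sum_sub_distrib]
        exact sum_congr rfl fun S _ => by ring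
      rw [h6, e1, e2]
      ring
    rw [h5]
    refine (abs_add_le _ _).trans ?_
    rw [abs_neg, abs_mul, abs_of_pos (by norm_num : (0 : ℝ) < 6)]
    nlinarith
  -- the value
  have hsg : sgS P = 1 := by
    unfold sgS
    have h1 : ∏ l ∈ P, jacobiSym (-5) l = ∏ l ∈ P, (jacobiSym (-1) l * ch {l} 5) := by
      apply prod_congr rfl
      intro l _
      unfold ch
      rw [prod_singleton, ← jacobiSym.mul_left]
      norm_num
    have h2 : ∏ l ∈ P, ch {l} 5 = jacobiSym (5 : ℤ) n := by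
      have := ch_primeFactors hn 5
      rw [Nat.cast_ofNat] at this
      rw [← this]
      unfold ch
      apply prod_congr rfl
      intro l _
      rw [prod_singleton]
    have h3 : ∏ l ∈ P, jacobiSym (-1) l = -1 := by
      have hkey : ∀ S : Finset ℕ, OP S → ∏ l ∈ S, jacobiSym (-1) l = jacobiSym (-1) (md S) := by
        intro S
        induction S using Finset.induction_on with
        | empty => intro _; simp [md, jacobiSym.one_right]
        | insert p S hp ih =>
          intro hS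
          have h1 : OP S := fun q hq => hS q (mem_insert_of_mem hq)
          have h2 : p ≠ 0 := (hS p (mem_insert_self p S)).1.ne_zero
          have e : md (insert p S) = p * md S := by unfold md; rw [prod_insert hp]
          rw [e, jacobiSym.mul_right' _ h2 (md_pos h1).ne', ← ih h1, prod_insert hp]
      rw [hkey P hOP, md_P hn, jacobiSym.at_neg_one (Nat.odd_iff.2 (by omega)),
        ZMod.χ₄_nat_three_mod_four h4]
    rw [h1, prod_mul_distrib, h2, h3, jac_five h4 h5]
    norm_num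
  have hsum : ∑ S ∈ P.powerset, ((sgS S : ℤ) : ℝ) *
      (if S = ∅ ∨ S = P then mu (rc P) n / 2 else 0) = mu (rc P) n := by
    have hne : (∅ : Finset ℕ) ≠ P := hP0.ne_empty.symm
    have h1 : ∀ S ∈ P.powerset, ((sgS S : ℤ) : ℝ) *
        (if S = ∅ ∨ S = P then mu (rc P) n / 2 else 0) =
        (if S = ∅ then mu (rc P) n / 2 else 0) + (if S = P then mu (rc P) n / 2 else 0) := by
      intro S _
      by_cases a1 : S = ∅
      · subst a1
        rw [if_pos (Or.inl rfl), if_pos rfl, if_neg hne]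
        simp [sgS]
      · by_cases a2 : S = P
        · rw [if_pos (Or.inr a2), if_neg a1, if_pos a2, a2, hsg]
          simp
        · rw [if_neg (by tauto), if_neg a1, if_neg a2]
          simp
    rw [sum_congr rfl h1, sum_add_distrib, sum_ite_eq', sum_ite_eq',
      if_pos (empty_mem_powerset P), if_pos (mem_powerset_self P)]
    ring
  rw [hsum] at hlim
  linarith

/-- the class number formula -/
theorem cnf (hPC : S_PC) {n : ℕ} (hn : Squarefree n) (h4 : n % 4 = 3)
    (h5 : n % 5 = 2 ∨ n % 5 = 3) :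
    6 * ∑ u ∈ range n, (u : ℤ) * jacobiSym (u : ℤ) n = -(n * rr n) := by
  have h1 := rr_mu hPC hn h4 h5
  have hn0 : 0 < n := by omega
  have hnr : (n : ℝ) ≠ 0 := by positivity
  have hOP := OP_P h4
  have hP0 : n.primeFactors.Nonempty := by
    rw [Nat.nonempty_primeFactors]; omega
  have h0 : ps (rc n.primeFactors) n = 0 := by
    have := rc_ps hOP hP0
    rwa [md_P hn] at this
  rw [mu_eq h0] at h1
  have h2 : ∑ j ∈ range n, (j : ℝ) * rc n.primeFactors j =
      ((∑ u ∈ range n, (u : ℤ) * jacobiSym (u : ℤ) n : ℤ) : ℝ) := by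
    push_cast
    apply sum_congr rfl
    intro j _
    unfold rc
    rw [ch_primeFactors hn]
  rw [h2] at h1
  have h3 : ((6 * ∑ u ∈ range n, (u : ℤ) * jacobiSym (u : ℤ) n : ℤ) : ℝ) =
      ((-(n * rr n) : ℤ) : ℝ) := by
    push_cast at h1 ⊢
    rw [h1]
    field_simp
  exact_mod_cast h3

end Pool.Agent.N855.CNF
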