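import Mathlib

/-!
# Genus characters and divisor sums
-/

set_option autoImplicit false

namespace Pool.Agent.N855.CNF

open Finset ArithmeticFunction

/-- a product of Legendre symbols -/
def ch (S : Finset ℕ) (d : ℕ) : ℤ := ∏ p ∈ S, jacobiSym (d : ℤ) p

lemma ch_one (S : Finset ℕ) : ch S 1 = 1 := by
  unfold ch
  apply prod_eq_one
  intro p _
  rw [Nat.cast_one, jacobiSym.one_left]

lemma ch_mul (S : Finset ℕ) (a b : ℕ) : ch S (a * b) = ch S a * ch S b := by
  unfold ch
  rw [← prod_mul_distrib]
  apply prod_congr rfl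
  intro p _
  rw [Nat.cast_mul, jacobiSym.mul_left]

lemma ch_pow (S : Finset ℕ) (a k : ℕ) : ch S (a ^ k) = ch S a ^ k := by
  induction k with
  | zero => simp [ch_one]
  | succ k ih => rw [pow_succ, ch_mul, ih, pow_succ]

lemma ch_empty (d : ℕ) : ch ∅ d = 1 := by simp [ch]

/-- the corresponding arithmetic function -/
def cA (S : Finset ℕ) : ArithmeticFunction ℤ := ⟨fun d => if d = 0 then 0 else ch S d, by simp⟩

lemma cA_apply (S : Finset ℕ) {d : ℕ} (hd : d ≠ 0) : cA S d = ch S d := by
  show (if d = 0 then 0 else ch S d) = _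
  rw [if_neg hd]

lemma cA_mult (S : Finset ℕ) : (cA S).IsMultiplicative := by
  rw [IsMultiplicative.iff_ne_zero]
  refine ⟨by rw [cA_apply S one_ne_zero, ch_one], fun {m k} hm hk _ => ?_⟩
  rw [cA_apply S (mul_ne_zero hm hk), cA_apply S hm, cA_apply S hk, ch_mul]

/-- the Hilbert symbol `(m, -n)` at `l` -/
def eta (n l m : ℕ) : ℤ := jacobiSym ((n / l : ℕ) : ℤ) l ^ m.factorization l *
  jacobiSym ((m / l ^ m.factorization l : ℕ) : ℤ) l

lemma eta_one (n l : ℕ) : eta n l 1 = 1 := by
  unfold eta
  simp [jacobiSym.one_left]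

lemma eta_mul (n l : ℕ) {a b : ℕ} (ha : a ≠ 0) (hb : b ≠ 0) :
    eta n l (a * b) = eta n l a * eta n l b := by
  unfold eta
  have h1 := Nat.ordCompl_mul a b l
  rw [h1, Nat.factorization_mul ha hb, Finsupp.add_apply, pow_add, Nat.cast_mul,
    jacobiSym.mul_left]
  ring

lemma eta_pow (n l : ℕ) {a : ℕ} (ha : a ≠ 0) (k : ℕ) : eta n l (a ^ k) = eta n l a ^ k := by
  induction k with
  | zero => simp [eta_one]
  | succ k ih => rw [pow_succ, eta_mul n l (pow_ne_zero k ha) ha, ih, pow_succ]

lemma eta_ne (n : ℕ) {l p : ℕ} (hp : p.Prime) (hl : l.Prime) (h : l ≠ p) :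
    eta n l p = jacobiSym (p : ℤ) l := by
  unfold eta
  have h1 : p.factorization l = 0 := by
    rw [hp.factorization, Finsupp.single_apply, if_neg (Ne.symm h)]
  rw [h1]
  simp

lemma eta_self (n : ℕ) {l : ℕ} (hl : l.Prime) :
    eta n l l = jacobiSym ((n / l : ℕ) : ℤ) l := by
  unfold eta
  have h1 : l.factorization l = 1 := hl.factorization_self
  rw [h1, pow_one, pow_one, Nat.div_self hl.pos, Nat.cast_one, jacobiSym.one_left, mul_one]

/-- the corresponding arithmetic function -/
def eA (n : ℕ) (S : Finset ℕ) : ArithmeticFunction ℤ :=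
  ⟨fun m => if m = 0 then 0 else ∏ l ∈ S, eta n l m, by simp⟩

lemma eA_apply (n : ℕ) (S : Finset ℕ) {m : ℕ} (hm : m ≠ 0) :
    eA n S m = ∏ l ∈ S, eta n l m := by
  show (if m = 0 then 0 else ∏ l ∈ S, eta n l m) = _
  rw [if_neg hm]

lemma eA_mult (n : ℕ) (S : Finset ℕ) : (eA n S).IsMultiplicative := by
  rw [IsMultiplicative.iff_ne_zero]
  refine ⟨?_, fun {m k} hm hk _ => ?_⟩
  · rw [eA_apply n S one_ne_zero]
    exact prod_eq_one fun l _ => eta_one n l
  · rw [eA_apply n S (mul_ne_zero hm hk), eA_apply n S hm, eA_apply n S hk, ← prod_mul_distrib]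
    exact prod_congr rfl fun l _ => eta_mul n l hm hk

lemma conv_pow (f g : ArithmeticFunction ℤ) {p : ℕ} (hp : p.Prime) (k : ℕ) :
    (f * g) (p ^ k) = ∑ j ∈ range (k + 1), f (p ^ j) * g (p ^ (k - j)) := by
  rw [mul_apply, Nat.sum_divisorsAntidiagonal (f := fun a b => f a * g b),
    Nat.sum_divisors_prime_pow hp]
  apply sum_congr rfl
  intro j hj
  rw [Nat.pow_div (by rw [mem_range] at hj; omega) hp.pos]

/-- a Legendre symbol away from the primes dividing the argument -/
lemma ch_sq {S : Finset ℕ} (hS : ∀ l ∈ S, l.Prime) {p : ℕ} (hp : p.Prime) (h : p ∉ S) :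
    ch S p = 1 ∨ ch S p = -1 := by
  have : ch S p ^ 2 = 1 := by
    unfold ch
    rw [← prod_pow]
    apply prod_eq_one
    intro l hl
    apply jacobiSym.sq_one
    have : Nat.Coprime p l := (Nat.coprime_primes hp (hS l hl)).2 (fun e => h (e ▸ hl))
    rw [Int.gcd_natCast_natCast]
    exact this
  exact sq_eq_one_iff_of_ne_zero this
where
  sq_eq_one_iff_of_ne_zero {x : ℤ} (h : x ^ 2 = 1) : x = 1 ∨ x = -1 := sq_eq_one_iff.1 h

lemma ch_zero {S : Finset ℕ} {p : ℕ} (hp : p.Prime) (h : p ∈ S) : ch S p = 0 := by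
  unfold ch
  apply prod_eq_zero h
  have : NeZero p := ⟨hp.ne_zero⟩
  rw [jacobiSym.eq_zero_iff_not_coprime, Int.gcd_natCast_natCast, Nat.gcd_self]
  exact hp.one_lt.ne'

lemma ch_split {S P : Finset ℕ} (h : S ⊆ P) (d : ℕ) : ch P d = ch S d * ch (P \ S) d := by
  unfold ch
  rw [mul_comm, prod_sdiff h]

lemma ch_erase {S : Finset ℕ} {p : ℕ} (h : p ∈ S) (d : ℕ) :
    ch S d = jacobiSym (d : ℤ) p * ch (S.erase p) d := by
  unfold ch
  rw [mul_prod_erase S (fun q => jacobiSym (d : ℤ) q) h]

/-- the product of the Legendre symbols is a Jacobi symbol -/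
lemma ch_primeFactors {n : ℕ} (hn : Squarefree n) (d : ℕ) :
    ch n.primeFactors d = jacobiSym (d : ℤ) n := by
  have key : ∀ S : Finset ℕ, (∀ p ∈ S, p.Prime) → jacobiSym (d : ℤ) (∏ p ∈ S, p) = ch S d := by
    intro S
    induction S using Finset.induction_on with
    | empty => intro _; simp [ch, jacobiSym.one_right]
    | insert p S hp ih =>
      intro h
      have h1 : ∀ q ∈ S, q.Prime := fun q hq => h q (mem_insert_of_mem hq)
      have h2 : p ≠ 0 := (h p (mem_insert_self p S)).ne_zero
      have h3 : (∏ q ∈ S, q) ≠ 0 := prod_ne_zero_iff.2 fun q hq => (h1 q hq).ne_zero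
      rw [prod_insert hp, jacobiSym.mul_right' _ h2 h3, ih h1]
      unfold ch
      rw [prod_insert hp]
  rw [← key _ (fun p hp => Nat.prime_of_mem_primeFactors hp), Nat.prod_primeFactors_of_squarefree hn]

/-- reciprocity at a prime factor of `n`, `n = 3 mod 4` -/
lemma recip {n l : ℕ} (h4 : n % 4 = 3) (hl : l.Prime) (hln : l ∣ n) :
    jacobiSym ((n / l : ℕ) : ℤ) l = jacobiSym (l : ℤ) (n / l) := by
  obtain ⟨k, rfl⟩ := hln
  rw [Nat.mul_div_cancel_left k hl.pos]
  have hlo : Odd l := by
    rcases hl.eq_two_or_odd' with h | h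
    · subst h; omega
    · exact h
  have hko : Odd k := by
    rcases Nat.even_or_odd k with h | h
    · exfalso
      obtain ⟨j, hj⟩ := h
      subst hj
      have : l * (j + j) = 2 * (l * j) := by ring
      omega
    · exact h
  rcases Nat.odd_mod_four_iff.1 (Nat.odd_iff.1 hlo) with h1 | h3
  · exact (jacobiSym.quadratic_reciprocity_one_mod_four h1 hko).symm
  · have hk1 : k % 4 = 1 := by
      have h5 : (l % 4) * (k % 4) % 4 = 3 := by rw [← Nat.mul_mod]; exact h4
      rw [h3] at h5
      have : k % 4 < 4 := Nat.mod_lt _ (by norm_num)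
      interval_cases (k % 4) <;> omega
    exact jacobiSym.quadratic_reciprocity_one_mod_four hk1 hlo

/-- the genus decomposition of the divisor sums -/
theorem conv_eq {n : ℕ} (hn : Squarefree n) (h4 : n % 4 = 3) {S : Finset ℕ}
    (hS : S ⊆ n.primeFactors) :
    (eA n S).pmul (cA ∅ * cA n.primeFactors) = cA S * cA (n.primeFactors \ S) := by
  set P := n.primeFactors with hP
  have hPp : ∀ l ∈ P, l.Prime := fun l hl => Nat.prime_of_mem_primeFactors hl
  have hSp : ∀ l ∈ S, l.Prime := fun l hl => hPp l (hS hl)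
  have hTp : ∀ l ∈ P \ S, l.Prime := fun l hl => hPp l (mem_sdiff.1 hl).1
  rw [IsMultiplicative.eq_iff_eq_on_prime_powers _
    ((eA_mult n S).pmul ((cA_mult _).mul (cA_mult _))) _ ((cA_mult _).mul (cA_mult _))]
  intro p k hp
  rw [pmul_apply, conv_pow _ _ hp, conv_pow _ _ hp, eA_apply n S (pow_ne_zero k hp.ne_zero)]
  have e1 : ∀ (Q : Finset ℕ) (j : ℕ), cA Q (p ^ j) = ch Q p ^ j := fun Q j => by
    rw [cA_apply Q (pow_ne_zero j hp.ne_zero), ch_pow]
  have e2 : ∏ l ∈ S, eta n l (p ^ k) = (∏ l ∈ S, eta n l p) ^ k := by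
    rw [← prod_pow]
    exact prod_congr rfl fun l _ => eta_pow n l hp.ne_zero k
  rw [e2]
  simp_rw [e1, ch_empty, one_pow, one_mul]
  have hsp := ch_split hS p
  by_cases hpP : p ∈ P
  · by_cases hpS : p ∈ S
    · have hu : ch S p = 0 := ch_zero hp hpS
      have hpT : p ∉ P \ S := fun h => (mem_sdiff.1 h).2 hpS
      have hh : ∏ l ∈ S, eta n l p = ch (P \ S) p := by
        have h1 : ∏ l ∈ S, eta n l p = jacobiSym (p : ℤ) (n / p) * ch (S.erase p) p := by
          rw [← mul_prod_erase S _ hpS, eta_self n hp,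
            recip h4 hp (Nat.dvd_of_mem_primeFactors hpP)]
          congr 1
          apply prod_congr rfl
          intro l hl
          exact eta_ne n hp (hSp l (mem_of_mem_erase hl)) (ne_of_mem_erase hl)
        have h2 : jacobiSym (p : ℤ) (n / p) = ch (P.erase p) p := by
          have h3 : (n / p).primeFactors = P.erase p := by
            obtain ⟨k, hk⟩ := Nat.dvd_of_mem_primeFactors hpP
            have hk0 : k ≠ 0 := fun h => hn.ne_zero (by rw [hk, h, mul_zero])
            have hcop : ¬ p ∣ k := fun ⟨j, hj⟩ => by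
              have : p * p ∣ n := ⟨j, by rw [hk, hj]; ring⟩
              exact hp.one_lt.ne' (Nat.isUnit_iff.1 (hn p this))
            rw [hP, hk, Nat.mul_div_cancel_left k hp.pos, Nat.primeFactors_mul hp.ne_zero hk0,
              hp.primeFactors]
            ext q
            simp only [mem_erase, mem_union, mem_singleton]
            constructor
            · intro h
              exact ⟨fun e => hcop (e ▸ Nat.dvd_of_mem_primeFactors h), Or.inr h⟩
            · rintro ⟨h5, h6 | h6⟩
              · exact absurd h6 h5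
              · exact h6
          rw [← h3, ch_primeFactors (hn.squarefree_of_dvd
            (Nat.div_dvd_of_dvd (Nat.dvd_of_mem_primeFactors hpP)))]
        have h4' : ch (P.erase p) p = ch (S.erase p) p * ch (P \ S) p := by
          rw [ch_split (S := S.erase p) (P := P.erase p) (erase_subset_erase p hS)]
          congr 2
          ext q
          simp only [mem_sdiff, mem_erase]
          constructor
          · rintro ⟨⟨h5, h6⟩, h7⟩
            exact ⟨h6, fun h8 => h7 ⟨h5, h8⟩⟩
          · rintro ⟨h5, h6⟩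
            exact ⟨⟨fun e => h6 (e ▸ hpS), h5⟩, fun h8 => h6 h8.2⟩
        have h5 : ch (S.erase p) p ^ 2 = 1 := by
          rcases ch_sq (fun l hl => hSp l (mem_of_mem_erase hl)) hp
            (notMem_erase p S) with h | h <;> rw [h] <;> norm_num
        rw [h1, h2, h4']
        linear_combination ch (P \ S) p * h5
      rw [hh, hsp, hu, zero_mul]
      have s1 : ∑ x ∈ range (k + 1), (0 : ℤ) ^ (k - x) = 1 := by
        rw [sum_eq_single k]
        · simp
        · intro x hx hne
          rw [mem_range] at hx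
          exact zero_pow (by omega)
        · intro h; exact absurd (self_mem_range_succ k) h
      have s2 : ∑ x ∈ range (k + 1), (0 : ℤ) ^ x * ch (P \ S) p ^ (k - x) = ch (P \ S) p ^ k := by
        rw [sum_eq_single 0]
        · simp
        · intro x _ hne
          rw [zero_pow hne, zero_mul]
        · intro h; exact absurd (mem_range.2 (Nat.succ_pos k)) h
      rw [s1, s2, mul_one]
    · have hpT : p ∈ P \ S := mem_sdiff.2 ⟨hpP, hpS⟩
      have hw : ch (P \ S) p = 0 := ch_zero hp hpT
      have hh : ∏ l ∈ S, eta n l p = ch S p := by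
        unfold ch
        apply prod_congr rfl
        intro l hl
        exact eta_ne n hp (hSp l hl) (fun e => hpS (e ▸ hl))
      rw [hh, hsp, hw, mul_zero]
      have s1 : ∑ x ∈ range (k + 1), (0 : ℤ) ^ (k - x) = 1 := by
        rw [sum_eq_single k]
        · simp
        · intro x hx hne
          rw [mem_range] at hx
          exact zero_pow (by omega)
        · intro h; exact absurd (self_mem_range_succ k) h
      have s2 : ∑ x ∈ range (k + 1), ch S p ^ x * (0 : ℤ) ^ (k - x) = ch S p ^ k := by
        rw [sum_eq_single k]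
        · simp
        · intro x hx hne
          rw [mem_range] at hx
          rw [zero_pow (by omega), mul_zero]
        · intro h; exact absurd (self_mem_range_succ k) h
      rw [s1, s2, mul_one]
  · have hpS : p ∉ S := fun h => hpP (hS h)
    have hh : ∏ l ∈ S, eta n l p = ch S p := by
      unfold ch
      apply prod_congr rfl
      intro l hl
      exact eta_ne n hp (hSp l hl) (fun e => hpS (e ▸ hl))
    rw [hh, hsp, mul_sum]
    apply sum_congr rfl
    intro x hx
    rw [mem_range] at hx
    have hu2 : ch S p ^ 2 = 1 := by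
      rcases ch_sq hSp hp hpS with h | h <;> rw [h] <;> norm_num
    rw [mul_pow, ← mul_assoc, ← pow_add]
    have e3 : k + (k - x) = x + 2 * (k - x) := by omega
    rw [e3, pow_add, pow_mul, hu2, one_pow, mul_one]

end Pool.Agent.N855.CNF
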