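import Pool.Agent.N855.CNF.Abel
import Pool.Agent.N855.CNF.Char
import Pool.Agent.H591R2.Char

/-!
# The quadratic characters as periodic functions
-/

set_option autoImplicit false

namespace Pool.Agent.N855.CNF

open Finset

/-- sets of odd primes -/
def OP (S : Finset ℕ) : Prop := ∀ p ∈ S, p.Prime ∧ p ≠ 2

/-- the modulus -/
def md (S : Finset ℕ) : ℕ := ∏ p ∈ S, p

lemma md_pos {S : Finset ℕ} (hS : OP S) : 0 < md S := prod_pos fun p hp => (hS p hp).1.pos

lemma md_odd {S : Finset ℕ} (hS : OP S) : Odd (md S) := by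
  unfold md
  apply Finset.prod_induction _ Odd (fun a b => Odd.mul) odd_one
  intro p hp
  exact (hS p hp).1.odd_of_ne_two (hS p hp).2

lemma ch_jac {S : Finset ℕ} (hS : OP S) (d : ℕ) : ch S d = jacobiSym (d : ℤ) (md S) := by
  induction S using Finset.induction_on with
  | empty => simp [ch, md, jacobiSym.one_right]
  | insert p S hp ih =>
    have h1 : OP S := fun q hq => hS q (mem_insert_of_mem hq)
    have h2 : p ≠ 0 := (hS p (mem_insert_self p S)).1.ne_zero
    have e : md (insert p S) = p * md S := by unfold md; rw [prod_insert hp]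
    rw [e, jacobiSym.mul_right' _ h2 (md_pos h1).ne', ← ih h1]
    unfold ch
    rw [prod_insert hp]

lemma ch_per {S : Finset ℕ} (hS : OP S) (d : ℕ) : ch S (d + md S) = ch S d := by
  rw [ch_jac hS, ch_jac hS]
  apply jacobiSym.mod_left'
  push_cast
  simp

lemma md_gt {S : Finset ℕ} (hS : OP S) (hne : S.Nonempty) : 1 < md S := by
  obtain ⟨p, hp⟩ := hne
  unfold md
  rw [← mul_prod_erase S _ hp]
  have h1 : 0 < ∏ q ∈ S.erase p, q := prod_pos fun q hq => (hS q (mem_of_mem_erase hq)).1.pos
  have h2 := (hS p hp).1.two_le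
  nlinarith

lemma ch_at_zero {S : Finset ℕ} (hS : OP S) (hne : S.Nonempty) : ch S 0 = 0 := by
  rw [ch_jac hS, Nat.cast_zero]
  exact jacobiSym.zero_left (md_gt hS hne)

lemma cA_eq {S : Finset ℕ} (hS : OP S) (hne : S.Nonempty) (d : ℕ) : cA S d = ch S d := by
  rcases eq_or_ne d 0 with rfl | h
  · rw [ch_at_zero hS hne]; simp
  · exact cA_apply S h

lemma ch_sum {S : Finset ℕ} (hS : OP S) (hne : S.Nonempty) :
    ∑ d ∈ range (md S), ch S d = 0 := by
  simp_rw [ch_jac hS]
  obtain ⟨p, hp⟩ := hne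
  have h1 : md S = p * ∏ q ∈ S.erase p, q := (mul_prod_erase S _ hp).symm
  have h2 : Nat.Coprime p (∏ q ∈ S.erase p, q) := by
    apply Nat.Coprime.prod_right
    intro q hq
    exact (Nat.coprime_primes (hS p hp).1 (hS q (mem_of_mem_erase hq)).1).2
      (ne_of_mem_erase hq).symm
  obtain ⟨a, ha1, ha2⟩ := Pool.Agent.H591R2.exists_jacobi_neg_one (md_odd hS) (hS p hp).1 h1 h2
  exact Pool.Agent.H591R2.sum_period (md_pos hS).ne' ha1 ha2

/-- the real valued function -/
def rc (S : Finset ℕ) (d : ℕ) : ℝ := (ch S d : ℝ)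

lemma rc_ps {S : Finset ℕ} (hS : OP S) (hne : S.Nonempty) : ps (rc S) (md S) = 0 := by
  unfold ps rc
  exact_mod_cast ch_sum hS hne

lemma rc_per {S : Finset ℕ} (hS : OP S) (d : ℕ) : rc S (d + md S) = rc S d := by
  unfold rc
  rw [ch_per hS]

/-- the first moment of an even character vanishes -/
lemma even_mu {S : Finset ℕ} (hS : OP S) (hne : S.Nonempty) (h1 : md S % 4 = 1) :
    mu (rc S) (md S) = 0 := by
  have hM := md_pos hS
  rw [mu_eq (rc_ps hS hne)]
  have hsum := rc_ps hS hne
  unfold ps at hsum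
  have hrefl : ∀ j ∈ range (md S + 1), rc S (md S - j) = rc S j := by
    intro j hj
    rw [mem_range] at hj
    unfold rc
    rw [ch_jac hS, ch_jac hS]
    congr 1
    have e1 : jacobiSym ((md S - j : ℕ) : ℤ) (md S) = jacobiSym (-(j : ℤ)) (md S) := by
      apply jacobiSym.mod_left'
      rw [Nat.cast_sub (by omega)]
      have : (md S : ℤ) - j = -(j : ℤ) + md S := by ring
      rw [this, Int.add_emod_right]
    rw [e1, neg_eq_neg_one_mul, jacobiSym.mul_left, jacobiSym.at_neg_one (md_odd hS),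
      ZMod.χ₄_nat_one_mod_four h1, one_mul]
  have h0 : rc S (md S) = 0 := by
    have := rc_per hS 0
    rw [zero_add] at this
    rw [this]
    unfold rc
    rw [ch_at_zero hS hne, Int.cast_zero]
  have e1 : ∑ j ∈ range (md S + 1), (j : ℝ) * rc S j =
      ∑ j ∈ range (md S + 1), ((md S : ℝ) - j) * rc S j := by
    rw [← sum_range_reflect]
    apply sum_congr rfl
    intro j hj
    rw [mem_range] at hj
    have e2 : md S + 1 - 1 - j = md S - j := by omega
    rw [e2, hrefl j (mem_range.2 hj), Nat.cast_sub (by omega)]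
  have e3 : ∑ j ∈ range (md S + 1), ((md S : ℝ) - j) * rc S j =
      md S * ∑ j ∈ range (md S + 1), rc S j - ∑ j ∈ range (md S + 1), (j : ℝ) * rc S j := by
    rw [mul_sum, ← sum_sub_distrib]
    exact sum_congr rfl fun j _ => by ring
  rw [e3, sum_range_succ (fun j => rc S j), hsum, h0] at e1
  rw [sum_range_succ, h0] at e1
  have : ∑ j ∈ range (md S), (j : ℝ) * rc S j = 0 := by linarith
  rw [this]
  simp

end Pool.Agent.N855.CNF
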