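import Mathlib

/-!
# Abel summation for periodic functions of mean zero
-/

set_option autoImplicit false

namespace Pool.Agent.N855.CNF

open Finset Filter Topology

/-- partial sums -/
def ps (ψ : ℕ → ℝ) (N : ℕ) : ℝ := ∑ j ∈ range N, ψ j

/-- the mean value of the partial sums -/
noncomputable def mu (ψ : ℕ → ℝ) (M : ℕ) : ℝ := (∑ j ∈ range M, ps ψ (j + 1)) / M

/-- second partial sums -/
noncomputable def ps2 (ψ : ℕ → ℝ) (M N : ℕ) : ℝ := ∑ j ∈ range N, (ps ψ (j + 1) - mu ψ M)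

lemma ps_succ (ψ : ℕ → ℝ) (N : ℕ) : ps ψ (N + 1) = ps ψ N + ψ N := sum_range_succ _ _

lemma ps2_succ (ψ : ℕ → ℝ) (M N : ℕ) :
    ps2 ψ M (N + 1) = ps2 ψ M N + (ps ψ (N + 1) - mu ψ M) := sum_range_succ _ _

lemma parts (ψ g : ℕ → ℝ) (M N : ℕ) : ∑ d ∈ range N, ψ d * g d =
    ps ψ N * g N + mu ψ M * (g 0 - g N) + ps2 ψ M N * (g N - g (N + 1)) +
      ∑ d ∈ range N, ps2 ψ M (d + 1) * (g d - 2 * g (d + 1) + g (d + 2)) := by
  induction N with
  | zero => simp [ps, ps2]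
  | succ N ih =>
    rw [sum_range_succ, ih, sum_range_succ, ps2_succ ψ M N, ps_succ]
    ring

lemma ps_per {ψ : ℕ → ℝ} {M : ℕ} (hp : ∀ k, ψ (k + M) = ψ k) (h0 : ps ψ M = 0) (N : ℕ) :
    ps ψ (N + M) = ps ψ N := by
  induction N with
  | zero => rw [Nat.zero_add, h0]; simp [ps]
  | succ N ih => rw [show N + 1 + M = N + M + 1 by omega, ps_succ, ih, hp, ps_succ]

lemma ps2_per {ψ : ℕ → ℝ} {M : ℕ} (hM : 0 < M) (hp : ∀ k, ψ (k + M) = ψ k) (h0 : ps ψ M = 0)
    (N : ℕ) : ps2 ψ M (N + M) = ps2 ψ M N := by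
  induction N with
  | zero =>
    rw [Nat.zero_add]
    unfold ps2 mu
    rw [sum_sub_distrib, sum_const, card_range, nsmul_eq_mul]
    have : (M : ℝ) ≠ 0 := by positivity
    field_simp
    simp
  | succ N ih =>
    rw [show N + 1 + M = N + M + 1 by omega, ps2_succ, ih, ps2_succ,
      show N + M + 1 = (N + 1) + M by omega, ps_per hp h0]

lemma bdd_of_per {f : ℕ → ℝ} {M : ℕ} (hM : 0 < M) (hp : ∀ k, f (k + M) = f k) :
    ∃ B : ℝ, 0 ≤ B ∧ ∀ k, |f k| ≤ B := by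
  refine ⟨∑ j ∈ range M, |f j|, sum_nonneg fun _ _ => abs_nonneg _, fun k => ?_⟩
  have h1 : f k = f (k % M) := by
    have : Function.Periodic f M := hp
    exact (this.map_mod_nat k).symm
  rw [h1]
  exact single_le_sum (f := fun j => |f j|) (fun _ _ => abs_nonneg _)
    (mem_range.2 (Nat.mod_lt _ hM))

/-- the mean value in terms of the first moment -/
lemma mu_eq {ψ : ℕ → ℝ} {M : ℕ} (h0 : ps ψ M = 0) :
    mu ψ M = -(∑ j ∈ range M, (j : ℝ) * ψ j) / M := by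
  have key : ∀ N : ℕ, ∑ j ∈ range N, ps ψ (j + 1) = N * ps ψ N - ∑ j ∈ range N, (j : ℝ) * ψ j := by
    intro N
    induction N with
    | zero => simp
    | succ N ih =>
      rw [sum_range_succ, ih, sum_range_succ, ps_succ]
      push_cast
      ring
  unfold mu
  rw [key, h0]
  ring

/-- second differences -/
lemma second_diff {g g1 g2 : ℝ → ℝ} {K x t : ℝ} (ht : 0 < t)
    (h1 : ∀ y, x ≤ y → HasDerivAt g (g1 y) y) (h2 : ∀ y, x ≤ y → HasDerivAt g1 (g2 y) y)
    (hK : ∀ y, x ≤ y → |g2 y| ≤ K) : |g x - 2 * g (x + t) + g (x + 2 * t)| ≤ K * t ^ 2 := by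
  have hφ : ∀ y, x ≤ y → HasDerivAt (fun s => g (s + t) - g s) (g1 (y + t) - g1 y) y := by
    intro y hy
    exact ((h1 (y + t) (by linarith)).comp_add_const y t).sub (h1 y hy)
  obtain ⟨ξ, hξ, e1⟩ := exists_hasDerivAt_eq_slope (fun s => g (s + t) - g s)
    (fun y => g1 (y + t) - g1 y) (show x < x + t by linarith)
    (fun y hy => (hφ y hy.1).continuousAt.continuousWithinAt) (fun y hy => hφ y hy.1.le)
  obtain ⟨ζ, hζ, e2⟩ := exists_hasDerivAt_eq_slope g1 g2 (show ξ < ξ + t by linarith)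
    (fun y hy => (h2 y (by linarith [hξ.1, hy.1])).continuousAt.continuousWithinAt)
    (fun y hy => h2 y (by linarith [hξ.1, hy.1]))
  have e3 : g1 (ξ + t) - g1 ξ = g2 ζ * t := by
    rw [e2, add_sub_cancel_left]; field_simp
  have e4 : g x - 2 * g (x + t) + g (x + 2 * t) = g2 ζ * t ^ 2 := by
    have e5 : (g1 (ξ + t) - g1 ξ) * t = (g (x + t + t) - g (x + t)) - (g (x + t) - g x) := by
      have e1' : g1 (ξ + t) - g1 ξ =
        ((g (x + t + t) - g (x + t)) - (g (x + t) - g x)) / (x + t - x) := e1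
      rw [e1', add_sub_cancel_left]; field_simp
    rw [e3] at e5
    have e6 : x + 2 * t = x + t + t := by ring
    rw [e6]
    linarith
  rw [e4, abs_mul, abs_of_pos (pow_pos ht 2)]
  exact mul_le_mul_of_nonneg_right (hK ζ (by linarith [hξ.1, hζ.1])) (by positivity)

/-- Abel summation: the sum of `ψ d * F (exp (-d t))` tends to `mu * F 1` -/
theorem abel {ψ : ℕ → ℝ} {M : ℕ} (hM : 0 < M) (hp : ∀ k, ψ (k + M) = ψ k) (h0 : ps ψ M = 0)
    {F F1 F2 : ℝ → ℝ} {K : ℝ} (hF1 : ∀ q, 0 ≤ q → q ≤ 1 → HasDerivAt F (F1 q) q)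
    (hF2 : ∀ q, 0 ≤ q → q ≤ 1 → HasDerivAt F1 (F2 q) q)
    (hK1 : ∀ q, 0 ≤ q → q ≤ 1 → |F1 q| ≤ K) (hK2 : ∀ q, 0 ≤ q → q ≤ 1 → |F2 q| ≤ K)
    (hF0 : F 0 = 0) : ∃ C : ℝ, ∀ t : ℝ, 0 < t → t ≤ 1 → ∀ s : ℝ,
      HasSum (fun d : ℕ => ψ d * F (Real.exp (-(d * t)))) s → |s - mu ψ M * F 1| ≤ C * t := by
  obtain ⟨B1, hB10, hB1⟩ := bdd_of_per hM (ps_per hp h0)
  obtain ⟨B2, hB20, hB2⟩ := bdd_of_per hM (ps2_per hM hp h0)
  have hK0 : 0 ≤ K := (abs_nonneg _).trans (hK1 0 le_rfl zero_le_one)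
  refine ⟨4 * B2 * K, fun t ht ht1 s hs => ?_⟩
  set g : ℝ → ℝ := fun x => F (Real.exp (-x)) with hg
  have q0 : ∀ x : ℝ, 0 ≤ x → 0 ≤ Real.exp (-x) ∧ Real.exp (-x) ≤ 1 := fun x hx =>
    ⟨(Real.exp_pos _).le, Real.exp_le_one_iff.2 (by linarith)⟩
  have hE : ∀ x : ℝ, HasDerivAt (fun x => Real.exp (-x)) (-Real.exp (-x)) x := fun x => by
    have := (hasDerivAt_neg x).exp
    simpa using this
  have hg1 : ∀ x, 0 ≤ x → HasDerivAt g (-(Real.exp (-x) * F1 (Real.exp (-x)))) x := by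
    intro x hx
    have := (hF1 _ (q0 x hx).1 (q0 x hx).2).comp x (hE x)
    refine this.congr_deriv ?_
    ring
  have hg2 : ∀ x, 0 ≤ x → HasDerivAt (fun x => -(Real.exp (-x) * F1 (Real.exp (-x))))
      (Real.exp (-x) * F1 (Real.exp (-x)) + Real.exp (-x) ^ 2 * F2 (Real.exp (-x))) x := by
    intro x hx
    have h3 := (hF2 _ (q0 x hx).1 (q0 x hx).2).comp x (hE x)
    have h4 := ((hE x).mul h3).neg
    refine h4.congr_deriv ?_
    simp only [Function.comp_apply]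
    ring
  have hb : ∀ x, 0 ≤ x → |Real.exp (-x) * F1 (Real.exp (-x)) +
      Real.exp (-x) ^ 2 * F2 (Real.exp (-x))| ≤ 2 * K * Real.exp (-x) := by
    intro x hx
    obtain ⟨a1, a2⟩ := q0 x hx
    have a3 := hK1 _ a1 a2
    have a4 := hK2 _ a1 a2
    refine (abs_add_le _ _).trans ?_
    rw [abs_mul, abs_mul, abs_of_nonneg a1, abs_of_nonneg (pow_nonneg a1 2)]
    have a5 : Real.exp (-x) ^ 2 ≤ Real.exp (-x) := by nlinarith
    have a6 : Real.exp (-x) * |F1 (Real.exp (-x))| ≤ Real.exp (-x) * K :=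
      mul_le_mul_of_nonneg_left a3 a1
    have a7 : Real.exp (-x) ^ 2 * |F2 (Real.exp (-x))| ≤ Real.exp (-x) * K :=
      mul_le_mul a5 a4 (abs_nonneg _) a1
    linarith
  have hsd : ∀ d : ℕ, |g (d * t) - 2 * g ((d + 1 : ℕ) * t) + g ((d + 2 : ℕ) * t)| ≤
      2 * K * t ^ 2 * Real.exp (-t) ^ d := by
    intro d
    have hx : (0 : ℝ) ≤ d * t := by positivity
    have h5 := second_diff (g := g) (K := 2 * K * Real.exp (-(d * t))) (x := d * t) ht
      (fun y hy => hg1 y (hx.trans hy)) (fun y hy => hg2 y (hx.trans hy)) (fun y hy => by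
        refine (hb y (hx.trans hy)).trans ?_
        apply mul_le_mul_of_nonneg_left _ (by positivity)
        exact Real.exp_le_exp.2 (by linarith))
    have e1 : ((d + 1 : ℕ) : ℝ) * t = d * t + t := by push_cast; ring
    have e2 : ((d + 2 : ℕ) : ℝ) * t = d * t + 2 * t := by push_cast; ring
    rw [e1, e2]
    refine h5.trans (le_of_eq ?_)
    rw [← Real.exp_nat_mul]
    have : -(↑d * t) = ↑d * -t := by ring
    rw [this]
    ring
  have hq1 : Real.exp (-t) < 1 := by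
    have := Real.exp_lt_exp.2 (show -t < 0 by linarith)
    rwa [Real.exp_zero] at this
  have hgeo : ∀ N : ℕ, ∑ d ∈ range N, 2 * K * t ^ 2 * Real.exp (-t) ^ d ≤ 4 * K * t := by
    intro N
    rw [← mul_sum]
    have h6 : ∑ d ∈ range N, Real.exp (-t) ^ d ≤ 2 / t := by
      have h7 : ∑ d ∈ range N, Real.exp (-t) ^ d ≤ (1 - Real.exp (-t))⁻¹ := by
        rw [← tsum_geometric_of_lt_one (Real.exp_pos _).le hq1]
        exact (summable_geometric_of_lt_one (Real.exp_pos _).le hq1).sum_le_tsum _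
          (fun _ _ => pow_nonneg (Real.exp_pos _).le _)
      refine h7.trans ?_
      have h8 : t / 2 ≤ 1 - Real.exp (-t) := by
        have h9 : Real.exp (-t) ≤ 1 / (1 + t) := by
          rw [Real.exp_neg, one_div]
          exact inv_anti₀ (by linarith) (by linarith [Real.add_one_le_exp t])
        have h10 : 1 / (1 + t) ≤ 1 - t / 2 := by
          rw [div_le_iff₀ (by linarith)]
          nlinarith
        linarith
      rw [inv_eq_one_div, div_le_div_iff₀ (by linarith) ht]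
      linarith
    calc 2 * K * t ^ 2 * ∑ d ∈ range N, Real.exp (-t) ^ d ≤ 2 * K * t ^ 2 * (2 / t) :=
          mul_le_mul_of_nonneg_left h6 (by positivity)
      _ = 4 * K * t := by field_simp; ring
  have hgc : ContinuousAt F 0 := (hF1 0 le_rfl zero_le_one).continuousAt
  have hlim : Tendsto (fun N : ℕ => g (N * t)) atTop (𝓝 0) := by
    have h7 : Tendsto (fun N : ℕ => Real.exp (-((N : ℝ) * t))) atTop (𝓝 0) := by
      apply Real.tendsto_exp_neg_atTop_nhds_zero.comp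
      exact tendsto_natCast_atTop_atTop.atTop_mul_const ht
    have h8 := hgc.tendsto.comp h7
    rw [hF0] at h8
    exact h8
  have hbound : ∀ N : ℕ, |∑ d ∈ range N, ψ d * F (Real.exp (-(d * t))) - mu ψ M * F 1| ≤
      4 * B2 * K * t + ((B1 + |mu ψ M|) * |g (N * t)| + B2 * (|g (N * t)| + |g ((N + 1 : ℕ) * t)|)) := by
    intro N
    have h9 := parts ψ (fun d => g (d * t)) M N
    have e1 : ∑ d ∈ range N, ψ d * F (Real.exp (-(d * t))) =
      ∑ d ∈ range N, ψ d * g (d * t) := rfl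
    have e2 : g ((0 : ℕ) * t) = F 1 := by simp [hg]
    rw [e1, h9, e2]
    have e3 : ps ψ N * g (N * t) + mu ψ M * (F 1 - g (N * t)) +
        ps2 ψ M N * (g (N * t) - g ((N + 1 : ℕ) * t)) +
        ∑ d ∈ range N, ps2 ψ M (d + 1) * (g (d * t) - 2 * g ((d + 1 : ℕ) * t) +
          g ((d + 2 : ℕ) * t)) - mu ψ M * F 1 =
        ∑ d ∈ range N, ps2 ψ M (d + 1) * (g (d * t) - 2 * g ((d + 1 : ℕ) * t) +
          g ((d + 2 : ℕ) * t)) + ((ps ψ N - mu ψ M) * g (N * t) +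
        ps2 ψ M N * (g (N * t) - g ((N + 1 : ℕ) * t))) := by ring
    rw [e3]
    refine (abs_add_le _ _).trans (add_le_add ?_ ?_)
    · refine (abs_sum_le_sum_abs _ _).trans ?_
      calc ∑ d ∈ range N, |ps2 ψ M (d + 1) * (g (d * t) - 2 * g ((d + 1 : ℕ) * t) +
          g ((d + 2 : ℕ) * t))| ≤ ∑ d ∈ range N, B2 * (2 * K * t ^ 2 * Real.exp (-t) ^ d) := by
            apply sum_le_sum
            intro d _
            rw [abs_mul]
            exact mul_le_mul (hB2 _) (hsd d) (abs_nonneg _) hB20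
        _ = B2 * ∑ d ∈ range N, (2 * K * t ^ 2 * Real.exp (-t) ^ d) := by rw [mul_sum]
        _ ≤ B2 * (4 * K * t) := mul_le_mul_of_nonneg_left (hgeo N) hB20
        _ = 4 * B2 * K * t := by ring
    · refine (abs_add_le _ _).trans (add_le_add ?_ ?_)
      · rw [abs_mul]
        apply mul_le_mul_of_nonneg_right _ (abs_nonneg _)
        refine (abs_sub _ _).trans ?_
        linarith [hB1 N]
      · rw [abs_mul]
        exact mul_le_mul (hB2 N) (abs_sub _ _) (abs_nonneg _) hB20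
  have hl1 := (hs.tendsto_sum_nat.sub_const (mu ψ M * F 1)).abs
  have hl2 : Tendsto (fun N : ℕ => 4 * B2 * K * t + ((B1 + |mu ψ M|) * |g (N * t)| +
      B2 * (|g (N * t)| + |g ((N + 1 : ℕ) * t)|))) atTop (𝓝 (4 * B2 * K * t)) := by
    have h10 : Tendsto (fun N : ℕ => |g (N * t)|) atTop (𝓝 0) := by
      simpa using hlim.abs
    have h11 : Tendsto (fun N : ℕ => |g ((N + 1 : ℕ) * t)|) atTop (𝓝 0) :=
      h10.comp (tendsto_add_atTop_nat 1)
    have h12 := ((h10.const_mul (B1 + |mu ψ M|)).add ((h10.add h11).const_mul B2)).const_add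
      (4 * B2 * K * t)
    simpa using h12
  exact le_of_tendsto_of_tendsto' hl1 hl2 hbound

end Pool.Agent.N855.CNF
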