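import Pool.Agent.N855.CNF.Rat
import Pool.Agent.N855.CNF.Per

/-!
# Lambert series near `q = 1`
-/

set_option autoImplicit false

namespace Pool.Agent.N855.CNF

open Finset Filter Topology ArithmeticFunction

lemma lam_summable (f g : ArithmeticFunction ℤ) (hf : ∀ n, |f n| ≤ 1) (hg : ∀ n, |g n| ≤ 1)
    {q : ℝ} (h0 : 0 ≤ q) (h1 : q < 1) :
    Summable (fun c : ℕ+ × ℕ+ => (f c.1 : ℝ) * (g c.2 : ℝ) * q ^ (c.1 * c.2 : ℕ)) := by
  have h2 := summable_prod_mul_pow (𝕜 := ℝ) 0 (r := q) (by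
    rw [Real.norm_eq_abs, abs_of_nonneg h0]; exact h1)
  refine Summable.of_norm_bounded h2 fun c => ?_
  rw [norm_mul, norm_mul, pow_zero, one_mul, norm_pow, Real.norm_eq_abs, Real.norm_eq_abs,
    Real.norm_eq_abs, abs_of_nonneg h0]
  have h3 : |((f c.1 : ℤ) : ℝ)| ≤ 1 := by exact_mod_cast hf c.1
  have h4 : |((g c.2 : ℤ) : ℝ)| ≤ 1 := by exact_mod_cast hg c.2
  have h5 : |((f c.1 : ℤ) : ℝ)| * |((g c.2 : ℤ) : ℝ)| ≤ 1 * 1 :=
    mul_le_mul h3 h4 (abs_nonneg _) zero_le_one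
  have h6 : 0 ≤ q ^ (c.1 * c.2 : ℕ) := pow_nonneg h0 _
  nlinarith

lemma lam_conv (f g : ArithmeticFunction ℤ) {q s : ℝ}
    (hs : HasSum (fun c : ℕ+ × ℕ+ => (f c.1 : ℝ) * (g c.2 : ℝ) * q ^ (c.1 * c.2 : ℕ)) s) :
    HasSum (fun n : ℕ => (((f * g) n : ℤ) : ℝ) * q ^ n) s := by
  rw [← sigmaAntidiagonalEquivProd.hasSum_iff] at hs
  have h1 := hs.sigma (g := fun n : ℕ+ => (((f * g) (n : ℕ) : ℤ) : ℝ) * q ^ (n : ℕ)) ?_
  · rw [← PNat.coe_injective.hasSum_iff]
    · exact h1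
    · intro x hx
      have hx0 : x = 0 := by
        by_contra h
        exact hx ⟨⟨x, Nat.pos_of_ne_zero h⟩, rfl⟩
      subst hx0
      simp
  · intro n
    have h2 : ∑ x : (Nat.divisorsAntidiagonal (n : ℕ)), (f x.1.1 : ℝ) * (g x.1.2 : ℝ) *
        q ^ (x.1.1 * x.1.2) = (((f * g) (n : ℕ) : ℤ) : ℝ) * q ^ (n : ℕ) := by
      rw [Finset.sum_coe_sort (Nat.divisorsAntidiagonal (n : ℕ))
        (fun x => (f x.1 : ℝ) * (g x.2 : ℝ) * q ^ (x.1 * x.2)), mul_apply]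
      push_cast
      rw [sum_mul]
      apply sum_congr rfl
      intro x hx
      rw [(Nat.mem_divisorsAntidiagonal.1 hx).1]
    rw [← h2]
    exact hasSum_fintype _

lemma lam_fib (f g : ArithmeticFunction ℤ) {G : ℝ → ℝ}
    (hG : ∀ r : ℝ, 0 ≤ r → r < 1 → HasSum (fun m : ℕ => (g m : ℝ) * r ^ m) (G r))
    {q s : ℝ} (h0 : 0 ≤ q) (h1 : q < 1)
    (hs : HasSum (fun c : ℕ+ × ℕ+ => (f c.1 : ℝ) * (g c.2 : ℝ) * q ^ (c.1 * c.2 : ℕ)) s) :
    HasSum (fun d : ℕ => (f d : ℝ) * G (q ^ d)) s := by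
  have h2 := hs.prod_fiberwise (g := fun d : ℕ+ => (f (d : ℕ) : ℝ) * G (q ^ (d : ℕ))) ?_
  · rw [← PNat.coe_injective.hasSum_iff]
    · exact h2
    · intro x hx
      have hx0 : x = 0 := by
        by_contra h
        exact hx ⟨⟨x, Nat.pos_of_ne_zero h⟩, rfl⟩
      subst hx0
      simp
  · intro d
    have h3 := (hG (q ^ (d : ℕ)) (pow_nonneg h0 _) (pow_lt_one₀ h0 h1 d.pos.ne')).mul_left
      ((f (d : ℕ) : ℤ) : ℝ)
    rw [← PNat.coe_injective.hasSum_iff] at h3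
    · refine h3.congr_fun fun m => ?_
      simp only [Function.comp_apply]
      rw [pow_mul]
      ring
    · intro x hx
      have hx0 : x = 0 := by
        by_contra h
        exact hx ⟨⟨x, Nat.pos_of_ne_zero h⟩, rfl⟩
      subst hx0
      simp

lemma cA_bd (S : Finset ℕ) (n : ℕ) : |cA S n| ≤ 1 := by
  rcases eq_or_ne n 0 with rfl | h
  · simp
  · rw [cA_apply S h]
    unfold ch
    rw [abs_prod]
    apply prod_le_one (fun _ _ => abs_nonneg _)
    intro p _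
    rcases jacobiSym.trichotomy (n : ℤ) p with h | h | h <;> rw [h] <;> simp

/-- the series -/
lemma lam_exists (S T : Finset ℕ) {t : ℝ} (ht : 0 < t) :
    ∃ s : ℝ, HasSum (fun n : ℕ => (((cA S * cA T) n : ℤ) : ℝ) * Real.exp (-t) ^ n) s := by
  have h1 : Real.exp (-t) < 1 := by
    have := Real.exp_lt_exp.2 (show -t < 0 by linarith)
    rwa [Real.exp_zero] at this
  exact ⟨_, lam_conv _ _ (lam_summable (cA S) (cA T) (cA_bd S) (cA_bd T)
    (Real.exp_pos _).le h1).hasSum⟩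

lemma lam_all (S T : Finset ℕ) {t s : ℝ} (ht : 0 < t)
    (hs : HasSum (fun n : ℕ => (((cA S * cA T) n : ℤ) : ℝ) * Real.exp (-t) ^ n) s) :
    HasSum (fun c : ℕ+ × ℕ+ => (cA S c.1 : ℝ) * (cA T c.2 : ℝ) *
      Real.exp (-t) ^ (c.1 * c.2 : ℕ)) s := by
  have h1 : Real.exp (-t) < 1 := by
    have := Real.exp_lt_exp.2 (show -t < 0 by linarith)
    rwa [Real.exp_zero] at this
  have h2 := (lam_summable (cA S) (cA T) (cA_bd S) (cA_bd T) (Real.exp_pos _).le h1).hasSum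
  have h3 := lam_conv _ _ h2
  rw [hs.unique h3]
  exact h2

/-- an even character on one side: the limit is zero -/
theorem lam_even {S T : Finset ℕ} (hS : OP S) (hT : OP T) (hS0 : S.Nonempty) (hT0 : T.Nonempty)
    (h1 : md T % 4 = 1) : ∃ C : ℝ, ∀ t : ℝ, 0 < t → t ≤ 1 → ∀ s : ℝ,
      HasSum (fun n : ℕ => (((cA S * cA T) n : ℤ) : ℝ) * Real.exp (-t) ^ n) s → |s| ≤ C * t := by
  obtain ⟨P, Q, hQ, hP0, hPQ, hgen⟩ := gen_fun (md_pos hT) (rc_per hT) (rc_ps hT hT0)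
    (by unfold rc; rw [ch_at_zero hT hT0, Int.cast_zero])
  rw [even_mu hT hT0 h1] at hPQ
  obtain ⟨C, hC⟩ := abel_rat (md_pos hS) (rc_per hS) (rc_ps hS hS0) P Q hQ hP0
  refine ⟨C, fun t ht ht1 s hs => ?_⟩
  have hq : Real.exp (-t) < 1 := by
    have := Real.exp_lt_exp.2 (show -t < 0 by linarith)
    rwa [Real.exp_zero] at this
  have h2 := lam_all S T ht hs
  have h3 := lam_fib (cA S) (cA T) (G := fun r => P.eval r / Q.eval r) (fun r a b => by
    refine (hgen r a b).congr_fun fun m => ?_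
    rw [cA_eq hT hT0]; rfl) (Real.exp_pos _).le hq h2
  have h4 := hC t ht ht1 s (by
    refine h3.congr_fun fun d => ?_
    rw [cA_eq hS hS0, ← Real.exp_nat_mul]
    have : (d : ℝ) * -t = -(d * t) := by ring
    rw [this]
    rfl)
  rw [hPQ, mul_zero, sub_zero] at h4
  exact h4

/-- one trivial character -/
theorem lam_triv {P : Finset ℕ} (hP : OP P) (hP0 : P.Nonempty) :
    ∃ C : ℝ, ∀ t : ℝ, 0 < t → t ≤ 1 → ∀ s1 s2 : ℝ,
      HasSum (fun n : ℕ => (((cA P * cA ∅) n : ℤ) : ℝ) * Real.exp (-t) ^ n) s1 →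
      HasSum (fun n : ℕ => (((cA P * cA ∅) n : ℤ) : ℝ) * Real.exp (-(2 * t)) ^ n) s2 →
        |s1 - 2 * s2 - mu (rc P) (md P) / 2| ≤ C * t := by
  obtain ⟨C, hC⟩ := abel_rat (md_pos hP) (rc_per hP) (rc_ps hP hP0) Polynomial.X
    (1 + Polynomial.X) (fun q a _ => by simp; exact a) (by simp)
  refine ⟨C, fun t ht ht1 s1 s2 hs1 hs2 => ?_⟩
  have hq : ∀ x : ℝ, 0 < x → Real.exp (-x) < 1 := fun x hx => by
    have := Real.exp_lt_exp.2 (show -x < 0 by linarith)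
    rwa [Real.exp_zero] at this
  have hG : ∀ r : ℝ, 0 ≤ r → r < 1 → HasSum (fun m : ℕ => (cA ∅ m : ℝ) * r ^ m) (r / (1 - r)) := by
    intro r a b
    have h1 := (hasSum_geometric_of_lt_one a b).mul_left r
    rw [← div_eq_mul_inv] at h1
    have h2 : HasSum (fun m : ℕ => (cA ∅ (m + 1) : ℝ) * r ^ (m + 1)) (r / (1 - r)) := by
      refine h1.congr_fun fun m => ?_
      rw [cA_apply ∅ (Nat.succ_ne_zero m), ch_empty, pow_succ]
      push_cast
      ring
    have h3 := (hasSum_nat_add_iff (f := fun m : ℕ => (cA ∅ m : ℝ) * r ^ m) 1).1 h2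
    simpa using h3
  have a1 := lam_fib (cA P) (cA ∅) hG (Real.exp_pos _).le (hq t ht) (lam_all P ∅ ht hs1)
  have a2 := lam_fib (cA P) (cA ∅) hG (Real.exp_pos _).le (hq (2 * t) (by linarith))
    (lam_all P ∅ (by linarith) hs2)
  have a3 := a1.sub (a2.mul_left 2)
  have a4 := hC t ht ht1 (s1 - 2 * s2) (by
    refine a3.congr_fun fun d => ?_
    rcases Nat.eq_zero_or_pos d with hd | hd
    · subst hd
      rw [cA_eq hP hP0, ch_at_zero hP hP0]
      unfold rc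
      rw [ch_at_zero hP hP0]
      simp
    · rw [cA_eq hP hP0]
      have e1 : Real.exp (-t) ^ d = Real.exp (-(d * t)) := by
        rw [← Real.exp_nat_mul]; congr 1; ring
      have e2 : Real.exp (-(2 * t)) ^ d = Real.exp (-(d * t)) ^ 2 := by
        rw [← Real.exp_nat_mul, ← Real.exp_nat_mul]; congr 1; push_cast; ring
      rw [e1, e2]
      have hdt : 0 < (d : ℝ) * t := by positivity
      have hr := hq _ hdt
      have hr0 := Real.exp_pos (-(d * t))
      set r := Real.exp (-(d * t)) with hrd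
      have n1 : 1 - r ≠ 0 := by linarith
      have n2 : 1 + r ≠ 0 := by linarith
      have n3 : 1 - r ^ 2 = (1 - r) * (1 + r) := by ring
      simp only [Polynomial.eval_X, Polynomial.eval_add, Polynomial.eval_one]
      rw [n3]
      unfold rc
      field_simp
      ring)
  simp only [Polynomial.eval_X, Polynomial.eval_add, Polynomial.eval_one] at a4
  have e : mu (rc P) (md P) * (1 / (1 + 1)) = mu (rc P) (md P) / 2 := by ring
  rw [e] at a4
  exact a4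

end Pool.Agent.N855.CNF
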