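import Pool.Agent.N855.CNF.Abel

/-!
# Abel summation with rational functions, generating functions of periodic functions
-/

set_option autoImplicit false

namespace Pool.Agent.N855.CNF

open Finset Filter Topology Polynomial

lemma rat_bound (P Q : ℝ[X]) (hQ : ∀ q : ℝ, 0 ≤ q → q ≤ 1 → 1 ≤ Q.eval q) :
    ∃ K : ℝ, ∀ q : ℝ, 0 ≤ q → q ≤ 1 → |P.eval q / Q.eval q| ≤ K := by
  obtain ⟨K, hK⟩ := isCompact_Icc.exists_bound_of_continuousOn (s := Set.Icc (0 : ℝ) 1)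
    (f := fun q => P.eval q) (P.continuous.continuousOn)
  refine ⟨K, fun q h0 h1 => ?_⟩
  have h2 := hK q ⟨h0, h1⟩
  rw [Real.norm_eq_abs] at h2
  have h3 := hQ q h0 h1
  rw [abs_div, abs_of_pos (by linarith : 0 < Q.eval q), div_le_iff₀ (by linarith)]
  have : 0 ≤ K := (abs_nonneg _).trans h2
  nlinarith

lemma rat_deriv (P Q : ℝ[X]) {q : ℝ} (hq : Q.eval q ≠ 0) :
    HasDerivAt (fun x => P.eval x / Q.eval x)
      ((derivative P * Q - P * derivative Q).eval q / (Q ^ 2).eval q) q := by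
  have h := (P.hasDerivAt q).div (Q.hasDerivAt q) hq
  refine h.congr_deriv ?_
  simp only [eval_sub, eval_mul, eval_pow]

/-- Abel summation with a rational function -/
theorem abel_rat {ψ : ℕ → ℝ} {M : ℕ} (hM : 0 < M) (hp : ∀ k, ψ (k + M) = ψ k)
    (h0 : ps ψ M = 0) (P Q : ℝ[X]) (hQ : ∀ q : ℝ, 0 ≤ q → q ≤ 1 → 1 ≤ Q.eval q)
    (hP0 : P.eval 0 = 0) : ∃ C : ℝ, ∀ t : ℝ, 0 < t → t ≤ 1 → ∀ s : ℝ,
      HasSum (fun d : ℕ => ψ d * (P.eval (Real.exp (-(d * t))) / Q.eval (Real.exp (-(d * t))))) s →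
        |s - mu ψ M * (P.eval 1 / Q.eval 1)| ≤ C * t := by
  set P1 := derivative P * Q - P * derivative Q with hP1
  set Q1 := Q ^ 2 with hQ1d
  set P2 := derivative P1 * Q1 - P1 * derivative Q1 with hP2
  have hQ1 : ∀ q : ℝ, 0 ≤ q → q ≤ 1 → 1 ≤ Q1.eval q := fun q a b => by
    rw [hQ1d, eval_pow]
    have := hQ q a b
    nlinarith
  have hQ2 : ∀ q : ℝ, 0 ≤ q → q ≤ 1 → 1 ≤ (Q1 ^ 2).eval q := fun q a b => by
    rw [eval_pow]
    have := hQ1 q a b
    nlinarith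
  obtain ⟨K1, hK1⟩ := rat_bound P1 Q1 hQ1
  obtain ⟨K2, hK2⟩ := rat_bound P2 (Q1 ^ 2) hQ2
  exact abel hM hp h0 (F := fun x => P.eval x / Q.eval x)
    (F1 := fun x => P1.eval x / Q1.eval x) (F2 := fun x => P2.eval x / (Q1 ^ 2).eval x)
    (K := max K1 K2)
    (fun q a b => rat_deriv P Q (by have := hQ q a b; linarith))
    (fun q a b => rat_deriv P1 Q1 (by have := hQ1 q a b; linarith))
    (fun q a b => (hK1 q a b).trans (le_max_left _ _))
    (fun q a b => (hK2 q a b).trans (le_max_right _ _)) (by simp [hP0])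

/-- the generating function of a periodic function of mean zero -/
theorem gen_fun {ψ : ℕ → ℝ} {M : ℕ} (hM : 0 < M) (hp : ∀ k, ψ (k + M) = ψ k)
    (h0 : ps ψ M = 0) (hψ : ψ 0 = 0) : ∃ P Q : ℝ[X],
      (∀ q : ℝ, 0 ≤ q → q ≤ 1 → 1 ≤ Q.eval q) ∧ P.eval 0 = 0 ∧
      P.eval 1 / Q.eval 1 = mu ψ M ∧
      ∀ q : ℝ, 0 ≤ q → q < 1 → HasSum (fun m : ℕ => ψ m * q ^ m) (P.eval q / Q.eval q) := by
  have hM' : ∃ N, M = N + 1 := ⟨M - 1, by omega⟩
  have hPe : ∀ q : ℝ, (∑ j ∈ range M, C (ps ψ (j + 1)) * X ^ j : ℝ[X]).eval q =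
      ∑ j ∈ range M, ps ψ (j + 1) * q ^ j := fun q => by
    rw [eval_finsetSum]; simp
  have hQe : ∀ q : ℝ, (∑ j ∈ range M, X ^ j : ℝ[X]).eval q = ∑ j ∈ range M, q ^ j := fun q => by
    rw [eval_finsetSum]; simp
  have hQ1 : ∀ q : ℝ, 0 ≤ q → q ≤ 1 → 1 ≤ ∑ j ∈ range M, q ^ j := by
    intro q h1 _
    obtain ⟨N, hN⟩ := hM'
    rw [hN, sum_range_succ']
    have : 0 ≤ ∑ k ∈ range N, q ^ (k + 1) := sum_nonneg fun _ _ => pow_nonneg h1 _
    simp only [pow_zero]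
    linarith
  refine ⟨∑ j ∈ range M, C (ps ψ (j + 1)) * X ^ j, ∑ j ∈ range M, X ^ j, ?_, ?_, ?_, ?_⟩
  · intro q h1 h2
    rw [hQe]
    exact hQ1 q h1 h2
  · rw [hPe]
    obtain ⟨N, hN⟩ := hM'
    rw [hN, sum_range_succ']
    have h1 : ps ψ (0 + 1) = 0 := by simp [ps, hψ]
    rw [h1]
    simp
  · rw [hPe, hQe]
    unfold mu
    simp
  · intro q h1 h2
    rw [hPe, hQe]
    obtain ⟨B, hB0, hB⟩ := bdd_of_per hM hp
    have hs : Summable (fun m : ℕ => ψ m * q ^ m) := by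
      refine Summable.of_norm_bounded (g := fun m : ℕ => B * q ^ m)
        ((summable_geometric_of_lt_one h1 h2).mul_left B) fun m => ?_
      rw [norm_mul, norm_pow, Real.norm_eq_abs, Real.norm_eq_abs, abs_of_nonneg h1]
      exact mul_le_mul_of_nonneg_right (hB m) (pow_nonneg h1 m)
    have key : ∀ N : ℕ, ∑ m ∈ range N, ψ m * q ^ m =
        (1 - q) * ∑ m ∈ range N, ps ψ (m + 1) * q ^ m + ps ψ N * q ^ N := by
      intro N
      induction N with
      | zero => simp [ps]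
      | succ N ih =>
        rw [sum_range_succ, ih, sum_range_succ, ps_succ, pow_succ]
        ring
    have h3 := hs.sum_add_tsum_nat_add M
    have h4 : ∑' m : ℕ, ψ (m + M) * q ^ (m + M) = q ^ M * ∑' m : ℕ, ψ m * q ^ m := by
      rw [← tsum_mul_left]
      congr 1
      funext m
      rw [hp, pow_add]
      ring
    rw [h4, key M, h0, zero_mul, add_zero] at h3
    have h5 := geom_sum_mul q M
    have hQ := hQ1 q h1 h2.le
    have h6 : ∑' m : ℕ, ψ m * q ^ m = (∑ j ∈ range M, ps ψ (j + 1) * q ^ j) /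
        ∑ j ∈ range M, q ^ j := by
      rw [eq_div_iff (by linarith)]
      have h7 : (1 - q) * ((∑' m : ℕ, ψ m * q ^ m) * ∑ j ∈ range M, q ^ j) =
          (1 - q) * ∑ j ∈ range M, ps ψ (j + 1) * q ^ j := by
        have h8 : (1 - q) * ((∑' m : ℕ, ψ m * q ^ m) * ∑ j ∈ range M, q ^ j) =
          (∑' m : ℕ, ψ m * q ^ m) * (1 - q ^ M) := by
          rw [show (1 - q ^ M) = -(q ^ M - 1) by ring, ← h5]; ring
        rw [h8]
        linarith
      exact mul_left_cancel₀ (by linarith) h7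
    rw [← h6]
    exact hs.hasSum

end Pool.Agent.N855.CNF
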