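import Mathlib

/-!
# Binary theta series at the cusp `0`
-/

set_option autoImplicit false

namespace Pool.Agent.N855.CNF

open Finset Filter Topology HurwitzZeta
open scoped Real

lemma cosKernel_bd (α : ℝ) {t : ℝ} (ht : 0 < t) : |cosKernel α t - 1| ≤ 1 / t ^ 2 := by
  have hπ := Real.pi_gt_three
  have h1 := hasSum_nat_cosKernel₀ α ht
  set q : ℝ := Real.exp (-(π * t)) with hq
  have hq0 : 0 < q := Real.exp_pos _
  have hq1 : q < 1 := by
    have := Real.exp_lt_exp.2 (show -(π * t) < 0 by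
      have : 0 < π * t := by positivity
      linarith)
    rwa [Real.exp_zero] at this
  have h2 : HasSum (fun n : ℕ => 2 * q * q ^ n) (2 * q * (1 - q)⁻¹) :=
    (hasSum_geometric_of_lt_one hq0.le hq1).mul_left (2 * q)
  have h3 : ∀ n : ℕ, ‖2 * Real.cos (2 * π * α * (n + 1)) * Real.exp (-π * (n + 1) ^ 2 * t)‖ ≤
      2 * q * q ^ n := by
    intro n
    rw [norm_mul, norm_mul, Real.norm_eq_abs, Real.norm_eq_abs, Real.norm_eq_abs, abs_two,
      abs_of_pos (Real.exp_pos _)]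
    have h4 : Real.exp (-π * (n + 1) ^ 2 * t) ≤ q * q ^ n := by
      rw [hq, ← Real.exp_nat_mul, ← Real.exp_add]
      apply Real.exp_le_exp.2
      have h5 : (0 : ℝ) ≤ n := Nat.cast_nonneg n
      have h6 : 0 ≤ π * t * (n * (n + 1)) := by positivity
      nlinarith
    calc 2 * |Real.cos (2 * π * α * (n + 1))| * Real.exp (-π * (n + 1) ^ 2 * t) ≤
        2 * 1 * (q * q ^ n) := mul_le_mul (mul_le_mul_of_nonneg_left (Real.abs_cos_le_one _)
          two_pos.le) h4 (Real.exp_pos _).le (by norm_num)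
      _ = 2 * q * q ^ n := by ring
  have h7 : ‖cosKernel α t - 1‖ ≤ 2 * q * (1 - q)⁻¹ := by
    rw [← h1.tsum_eq, ← h2.tsum_eq]
    exact tsum_of_norm_bounded h2.summable.hasSum h3
  rw [Real.norm_eq_abs] at h7
  refine h7.trans ?_
  have h8 : (π * t) ^ 2 / 2 ≤ Real.exp (π * t) - 1 := by
    have := Real.quadratic_le_exp_of_nonneg (show 0 ≤ π * t by positivity)
    have h9 : 0 < π * t := by positivity
    linarith
  have h9 : q * Real.exp (π * t) = 1 := by
    rw [hq, ← Real.exp_add]; simp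
  have h10 : 2 * q * (1 - q)⁻¹ = 2 / (Real.exp (π * t) - 1) := by
    have h11 : Real.exp (π * t) = 1 / q := by
      rw [eq_div_iff hq0.ne']; linarith
    rw [h11]
    have : 1 - q ≠ 0 := by linarith
    field_simp
  rw [h10, div_le_div_iff₀ (by
    have : 0 < (π * t) ^ 2 / 2 := by positivity
    linarith) (by positivity)]
  have h12 : (9 : ℝ) * t ^ 2 ≤ (π * t) ^ 2 := by
    have : (3 * t) ^ 2 ≤ (π * t) ^ 2 := by gcongr
    linarith [this]
  nlinarith [sq_nonneg t]

/-- the theta function with characteristic near `0` -/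
lemma evenKernel_bd (α : ℝ) {x : ℝ} (hx : 0 < x) :
    |evenKernel α x - 1 / √x| ≤ 1 / √x * x ^ 2 := by
  rw [evenKernel_functional_equation, ← Real.sqrt_eq_rpow]
  have h1 := cosKernel_bd α (t := 1 / x) (by positivity)
  have h2 : 1 / √x * cosKernel α (1 / x) - 1 / √x = 1 / √x * (cosKernel α (1 / x) - 1) := by ring
  rw [h2, abs_mul, abs_of_nonneg (by positivity)]
  apply mul_le_mul_of_nonneg_left _ (by positivity)
  refine h1.trans (le_of_eq ?_)
  field_simp

/-- the form -/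
def qf (A B C : ℝ) (w : ℤ × ℤ) : ℝ := C * w.1 ^ 2 + B * w.1 * w.2 + A * w.2 ^ 2

lemma inner (A B C : ℝ) (hA : 0 < A) {t : ℝ} (ht : 0 < t) (y : ℤ) :
    HasSum (fun x : ℤ => Real.exp (-(t * qf A B C (y, x))))
      (Real.exp (-(t * ((4 * A * C - B ^ 2) / (4 * A)) * y ^ 2)) *
        evenKernel ((B * y / (2 * A) : ℝ) : UnitAddCircle) (t * A / π)) := by
  have hπ := Real.pi_pos
  have h1 := (hasSum_int_evenKernel (B * y / (2 * A)) (t := t * A / π) (by positivity)).mul_left
    (Real.exp (-(t * ((4 * A * C - B ^ 2) / (4 * A)) * y ^ 2)))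
  refine h1.congr_fun fun x => ?_
  rw [← Real.exp_add]
  congr 1
  unfold qf
  field_simp
  ring

lemma outer_c (c : ℝ) (hc : 0 < c) :
    HasSum (fun y : ℤ => Real.exp (-(c * (y : ℝ) ^ 2)))
      (evenKernel ((0 : ℝ) : UnitAddCircle) (c / π)) := by
  have hπ := Real.pi_pos
  refine (hasSum_int_evenKernel 0 (t := c / π) (by positivity)).congr_fun fun x => ?_
  congr 1
  field_simp
  ring

lemma summ (A B C : ℝ) (hA : 0 < A) (hD : 0 < 4 * A * C - B ^ 2) {t : ℝ} (ht : 0 < t) :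
    Summable (fun w : ℤ × ℤ => Real.exp (-(t * qf A B C w))) := by
  have hπ := Real.pi_pos
  rw [summable_prod_of_nonneg (fun _ => (Real.exp_pos _).le)]
  refine ⟨fun y => (inner A B C hA ht y).summable, ?_⟩
  simp_rw [(inner A B C hA ht _).tsum_eq]
  have hc : 0 < t * ((4 * A * C - B ^ 2) / (4 * A)) := by positivity
  have hx : 0 < t * A / π := by positivity
  refine Summable.of_norm_bounded
    (g := fun y : ℤ => Real.exp (-(t * ((4 * A * C - B ^ 2) / (4 * A)) * (y : ℝ) ^ 2)) *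
      (1 / √(t * A / π) * (t * A / π) ^ 2 + 1 / √(t * A / π)))
    ((outer_c _ hc).summable.mul_right _) fun y => ?_
  rw [norm_mul, Real.norm_eq_abs, abs_of_pos (Real.exp_pos _)]
  apply mul_le_mul_of_nonneg_left _ (Real.exp_pos _).le
  have h1 := evenKernel_bd (B * y / (2 * A)) hx
  have h2 : ‖evenKernel ((B * y / (2 * A) : ℝ) : UnitAddCircle) (t * A / π)‖ ≤
      |evenKernel ((B * y / (2 * A) : ℝ) : UnitAddCircle) (t * A / π) - 1 / √(t * A / π)| +
        |1 / √(t * A / π)| := by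
    have := abs_add_le (evenKernel ((B * y / (2 * A) : ℝ) : UnitAddCircle) (t * A / π) -
      1 / √(t * A / π)) (1 / √(t * A / π))
    rwa [sub_add_cancel] at this
  have h3 : |1 / √(t * A / π)| = 1 / √(t * A / π) := abs_of_nonneg (by positivity)
  rw [h3] at h2
  linarith

/-- the asymptotics of a binary theta series -/
theorem asym (A B C : ℝ) (hA : 0 < A) (hD : 0 < 4 * A * C - B ^ 2) :
    ∃ κ K : ℝ, ∀ t : ℝ, 0 < t → t ≤ 1 → ∀ s : ℝ,
      HasSum (fun w : ℤ × ℤ => Real.exp (-(t * qf A B C w))) s → |s - κ / t| ≤ K * t := by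
  have hπ := Real.pi_pos
  set δ : ℝ := (4 * A * C - B ^ 2) / (4 * A) with hδ
  have hδ0 : 0 < δ := by positivity
  set a : ℝ := A / π with ha
  set c : ℝ := δ / π with hc
  have ha0 : 0 < a := by positivity
  have hc0 : 0 < c := by positivity
  refine ⟨1 / √(a * c), 1 / √(a * c) * (a ^ 2 * (1 + c ^ 2) + c ^ 2), fun t ht ht1 s hs => ?_⟩
  have hx : 0 < t * a := by positivity
  have hy : 0 < t * c := by positivity
  have e1 : t * A / π = t * a := by rw [ha]; ring
  have e2 : t * δ / π = t * c := by rw [hc]; ring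
  have hin : ∀ y : ℤ, HasSum (fun x : ℤ => Real.exp (-(t * qf A B C (y, x))))
      (Real.exp (-(t * δ * y ^ 2)) *
        evenKernel ((B * y / (2 * A) : ℝ) : UnitAddCircle) (t * a)) := by
    intro y
    have := inner A B C hA ht y
    rwa [e1] at this
  have hout := hs.prod_fiberwise hin
  have hE := outer_c (t * δ) (by positivity)
  rw [e2] at hE
  set E := evenKernel ((0 : ℝ) : UnitAddCircle) (t * c) with hEd
  have h1 := hout.sub (hE.mul_right (1 / √(t * a)))
  have h2 : |s - E * (1 / √(t * a))| ≤ E * (1 / √(t * a) * (t * a) ^ 2) := by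
    rw [← h1.tsum_eq, ← (hE.mul_right (1 / √(t * a) * (t * a) ^ 2)).tsum_eq, ← Real.norm_eq_abs]
    apply tsum_of_norm_bounded (hE.mul_right (1 / √(t * a) * (t * a) ^ 2)).summable.hasSum
    intro y
    rw [← mul_sub, norm_mul, Real.norm_eq_abs, abs_of_pos (Real.exp_pos _), Real.norm_eq_abs]
    exact mul_le_mul_of_nonneg_left (evenKernel_bd _ hx) (Real.exp_pos _).le
  have h3 := evenKernel_bd 0 hy
  rw [← hEd] at h3
  have h4 := (abs_le.1 h3).2
  have r1 : 1 / √(t * a) * (1 / √(t * c)) = 1 / √(a * c) / t := by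
    rw [Real.sqrt_mul ht.le, Real.sqrt_mul ht.le, Real.sqrt_mul ha0.le]
    have := Real.mul_self_sqrt ht.le
    have s1 := Real.sqrt_pos.2 ht
    have s2 := Real.sqrt_pos.2 ha0
    have s3 := Real.sqrt_pos.2 hc0
    field_simp
    rw [Real.sq_sqrt ht.le]
  have p1 : 0 ≤ 1 / √(t * a) := by positivity
  have p2 : 0 ≤ 1 / √(t * c) := by positivity
  have p3 : 0 ≤ 1 / √(a * c) / t := by positivity
  have t1 : (t * a) ^ 2 = t ^ 2 * a ^ 2 := by ring
  have t2 : (t * c) ^ 2 = t ^ 2 * c ^ 2 := by ring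
  have u1 : |s - 1 / √(a * c) / t| ≤ |s - E * (1 / √(t * a))| +
      |E * (1 / √(t * a)) - 1 / √(a * c) / t| := abs_sub_le _ _ _
  have u2 : |E * (1 / √(t * a)) - 1 / √(a * c) / t| ≤ 1 / √(a * c) / t * (t ^ 2 * c ^ 2) := by
    rw [← r1]
    have : E * (1 / √(t * a)) - 1 / √(t * a) * (1 / √(t * c)) =
        1 / √(t * a) * (E - 1 / √(t * c)) := by ring
    rw [this, abs_mul, abs_of_nonneg p1, mul_assoc, ← t2]
    exact mul_le_mul_of_nonneg_left h3 p1
  have u3 : E * (1 / √(t * a) * (t * a) ^ 2) ≤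
      1 / √(a * c) / t * ((t ^ 2 * a ^ 2) * (1 + c ^ 2)) := by
    have v1 : E ≤ 1 / √(t * c) * (1 + c ^ 2) := by
      have : (t * c) ^ 2 ≤ c ^ 2 := by
        rw [t2]
        have : t ^ 2 ≤ 1 := by nlinarith
        nlinarith [sq_nonneg c]
      nlinarith
    calc E * (1 / √(t * a) * (t * a) ^ 2) ≤
        (1 / √(t * c) * (1 + c ^ 2)) * (1 / √(t * a) * (t * a) ^ 2) :=
          mul_le_mul_of_nonneg_right v1 (by positivity)
      _ = 1 / √(t * a) * (1 / √(t * c)) * ((t ^ 2 * a ^ 2) * (1 + c ^ 2)) := by rw [t1]; ring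
      _ = _ := by rw [r1]
  have u4 : 1 / √(a * c) * (a ^ 2 * (1 + c ^ 2) + c ^ 2) * t =
      1 / √(a * c) / t * ((t ^ 2 * a ^ 2) * (1 + c ^ 2)) +
        1 / √(a * c) / t * (t ^ 2 * c ^ 2) := by
    field_simp
  rw [u4]
  linarith

end Pool.Agent.N855.CNF
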